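import Mathlib

/-!
MP_f98a08_co: statements of the parts (helper442).

`des` is the number of descents of a permutation of `Fin n`, `Sep` is separability
(avoiding 2413 and 3142).  `sepc n k` is the coefficient of `x^n z^k` of the power series `S`
with `S = x (1 + S + z S^2) + z S^3`.
-/

namespace R442.GS

open Finset

/-- number of descents: positions `i` with `i+1 < n` and `σ (i+1) < σ i`. -/
def des {n : ℕ} (σ : Equiv.Perm (Fin n)) : ℕ :=
  (univ.filter fun i : Fin n => ∃ h : i.val + 1 < n, σ ⟨i.val + 1, h⟩ < σ i).card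

/-- separable: no pattern 2413 and no pattern 3142. -/
def Sep {n : ℕ} (σ : Equiv.Perm (Fin n)) : Prop :=
  (¬ ∃ a b c d : Fin n, a < b ∧ b < c ∧ c < d ∧ σ c < σ a ∧ σ a < σ d ∧ σ d < σ b) ∧
  (¬ ∃ a b c d : Fin n, a < b ∧ b < c ∧ c < d ∧ σ b < σ d ∧ σ d < σ a ∧ σ a < σ c)

instance {n : ℕ} (σ : Equiv.Perm (Fin n)) : Decidable (Sep σ) := by
  unfold Sep; infer_instance

/-- `S_n(t)`, the descent polynomial of the separable permutations, as a function of an integer. -/
def sepPoly (n : ℕ) (t : ℤ) : ℤ :=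
  ∑ σ ∈ (univ : Finset (Equiv.Perm (Fin n))).filter Sep, t ^ des σ

/-- PART A (Carlitz-Roselle-Scoville): two-sided Eulerian identity. -/
def PartA : Prop := ∀ n k l : ℕ, 1 ≤ n →
  (k * l + n - 1).choose n =
    ∑ σ : Equiv.Perm (Fin n), (n + k - 1 - des σ).choose n * (n + l - 1 - des σ⁻¹).choose n

/-- PART E (separable permutations): the functional equation
`S = x (1 + (1+t) S + t S^2) + t S^3` in recursive form, `S_0 = 0`, `S_1 = 1`. -/
def PartE : Prop := ∀ (n : ℕ) (t : ℤ), 2 ≤ n →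
  sepPoly n t =
    (1 + t) * sepPoly (n - 1) t
    + t * ∑ p ∈ antidiagonal (n - 1), (if 1 ≤ p.1 ∧ 1 ≤ p.2 then sepPoly p.1 t * sepPoly p.2 t else 0)
    + t * ∑ p ∈ antidiagonal n, ∑ r ∈ antidiagonal p.2,
        (if 1 ≤ p.1 ∧ 1 ≤ r.1 ∧ 1 ≤ r.2 then sepPoly p.1 t * sepPoly r.1 t * sepPoly r.2 t else 0)

end R442.GS
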