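import Mathlib
import Pool.Agent.R442.GS.Stm

/-! Part B of MP_f98a08: the alternating formula for the extreme gamma coefficients. -/

namespace R442.GS

open Finset

/-- the defining identity of the two-variable gamma coefficients -/
def IsGamma (n : ℕ) (γ : ℕ → ℕ → ℤ) : Prop := ∀ s t : ℤ,
  ∑ σ : Equiv.Perm (Fin n), s ^ des σ⁻¹ * t ^ des σ =
    ∑ i ∈ range n, ∑ j ∈ range n,
      if 2 * i + j ≤ n - 1 then γ i j * (s * t) ^ i * (1 + s * t) ^ j * (s + t) ^ (n - 1 - j - 2 * i) else 0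

/-- the defining identity of the gamma coefficients of the separable permutations -/
def IsGammaSep (n : ℕ) (γ : ℕ → ℤ) : Prop := ∀ t : ℤ,
  sepPoly n t = ∑ k ∈ range ((n - 1) / 2 + 1), γ k * t ^ k * (1 + t) ^ (n - 1 - 2 * k)

theorem gamma_diag (n : ℕ) (hn : 1 ≤ n) (γ : ℕ → ℕ → ℤ) (h : IsGamma n γ) (x : ℤ) :
    ∑ σ : Equiv.Perm (Fin n), (-1) ^ des σ⁻¹ * x ^ (des σ⁻¹ + des σ) =
      ∑ i ∈ range ((n - 1) / 2 + 1), γ i (n - 1 - 2 * i) * (-1) ^ i * x ^ (2 * i) * (1 - x ^ 2) ^ (n - 1 - 2 * i) := by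
  have h1 := h (-x) x
  have h2 : ∀ σ : Equiv.Perm (Fin n), (-x) ^ des σ⁻¹ * x ^ des σ = (-1) ^ des σ⁻¹ * x ^ (des σ⁻¹ + des σ) := by
    intro σ
    rw [neg_pow, pow_add]; ring
  rw [sum_congr rfl (fun σ _ => h2 σ)] at h1
  rw [h1]
  have h3 : ∀ i ∈ range n, (∑ j ∈ range n,
      if 2 * i + j ≤ n - 1 then γ i j * (-x * x) ^ i * (1 + -x * x) ^ j * (-x + x) ^ (n - 1 - j - 2 * i) else 0)
      = if 2 * i ≤ n - 1 then γ i (n - 1 - 2 * i) * (-1) ^ i * x ^ (2 * i) * (1 - x ^ 2) ^ (n - 1 - 2 * i) else 0 := by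
    intro i _
    split_ifs with hi
    · rw [sum_eq_single (n - 1 - 2 * i)]
      · rw [if_pos (by omega), show n - 1 - (n - 1 - 2 * i) - 2 * i = 0 by omega, pow_zero, mul_one,
          show 1 + -x * x = 1 - x ^ 2 by ring, show -x * x = (-1) * x ^ 2 by ring, mul_pow, ← pow_mul]
        ring
      · intro j _ hj
        split_ifs with hij
        · rw [show -x + x = 0 by ring, zero_pow (by omega)]; ring
        · rfl
      · intro hc
        exact absurd (mem_range.2 (by omega)) hc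
    · refine sum_eq_zero (fun j _ => ?_)
      rw [if_neg (by omega)]
  rw [sum_congr rfl h3]
  rw [← sum_filter]
  refine sum_congr ?_ (fun _ _ => rfl)
  ext i
  simp only [mem_filter, mem_range]
  omega

open PowerSeries in
/-- `Σ_k C(n+k-1-d,n) X^k` -/
noncomputable def US (n d : ℕ) : PowerSeries ℤ := PowerSeries.mk (fun k => (((n + k - 1 - d).choose n : ℕ) : ℤ))

theorem US_eq (n d : ℕ) (hn : 1 ≤ n) : (1 - PowerSeries.X) ^ (n + 1) * US n d = PowerSeries.X ^ (d + 1) := by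
  have h1 : US n d = PowerSeries.X ^ (d + 1) * (PowerSeries.mk 1) ^ (n + 1) := by
    ext k
    rw [PowerSeries.mk_one_pow_eq_mk_choose_add, PowerSeries.coeff_X_pow_mul', US, PowerSeries.coeff_mk]
    split_ifs with hk
    · rw [PowerSeries.coeff_mk]
      congr 2
      omega
    · rw [Nat.choose_eq_zero_of_lt (by omega)]; simp
  have h2 : (PowerSeries.mk 1 : PowerSeries ℤ) * (1 - PowerSeries.X) = 1 := PowerSeries.mk_one_mul_one_sub_eq_one ℤ
  rw [h1]
  calc (1 - PowerSeries.X) ^ (n + 1) * (PowerSeries.X ^ (d + 1) * (PowerSeries.mk 1) ^ (n + 1))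
      = PowerSeries.X ^ (d + 1) * ((PowerSeries.mk 1 : PowerSeries ℤ) * (1 - PowerSeries.X)) ^ (n + 1) := by
        rw [mul_pow]; ring
    _ = _ := by rw [h2]; simp

noncomputable def VS' (n d : ℕ) : PowerSeries ℤ := PowerSeries.mk (fun k => (-1) ^ k * (((n + k - 1 - d).choose n : ℕ) : ℤ))

theorem VS'_eq (n d : ℕ) (hn : 1 ≤ n) : (1 + PowerSeries.X) ^ (n + 1) * VS' n d = (-PowerSeries.X) ^ (d + 1) := by
  have h0 : VS' n d = PowerSeries.rescale (-1) (US n d) := by
    ext k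
    rw [PowerSeries.coeff_rescale, VS', US, PowerSeries.coeff_mk, PowerSeries.coeff_mk]
  have h1 := congrArg (PowerSeries.rescale (-1 : ℤ)) (US_eq n d hn)
  rw [map_mul, map_pow, map_pow, map_sub, map_one, PowerSeries.rescale_neg_one_X, sub_neg_eq_add] at h1
  rw [h0]; exact h1

noncomputable def BS (m : ℕ) : PowerSeries ℤ := PowerSeries.mk (fun N => if Even N then (((N / 2 + m).choose m : ℕ) : ℤ) else 0)

theorem BS_zero : (1 - PowerSeries.X ^ 2) * BS 0 = 1 := by
  ext N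
  rw [sub_mul, one_mul, map_sub, PowerSeries.coeff_X_pow_mul', BS, PowerSeries.coeff_mk, PowerSeries.coeff_one]
  simp only [PowerSeries.coeff_mk]
  rcases N with _ | _ | N
  · simp
  · simp
  · rw [if_pos (by omega : 2 ≤ N + 1 + 1), show N + 1 + 1 - 2 = N by omega]
    have : Even (N + 1 + 1) ↔ Even N := by
      rw [show N + 1 + 1 = N + 2 by ring]; exact Nat.even_add' |>.trans (by simp [Nat.even_iff, Nat.odd_iff])
    by_cases hN : Even N
    · rw [if_pos (this.2 hN), if_pos hN]; simp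
    · rw [if_neg (fun hh => hN (this.1 hh)), if_neg hN]; simp

theorem BS_succ (m : ℕ) : (1 - PowerSeries.X ^ 2) * BS (m + 1) = BS m := by
  ext N
  rw [sub_mul, one_mul, map_sub, PowerSeries.coeff_X_pow_mul', BS, BS, PowerSeries.coeff_mk, PowerSeries.coeff_mk]
  simp only [PowerSeries.coeff_mk]
  rcases N with _ | _ | N
  · simp
  · simp
  · rw [if_pos (by omega : 2 ≤ N + 1 + 1), show N + 1 + 1 - 2 = N by omega]
    have h2 : Even (N + 1 + 1) ↔ Even N := by
      rw [Nat.even_iff, Nat.even_iff]; omega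
    by_cases hN : Even N
    · rw [if_pos (h2.2 hN), if_pos hN, if_pos (h2.2 hN)]
      have h3 : (N + 1 + 1) / 2 = N / 2 + 1 := by omega
      rw [h3]
      have := Nat.choose_succ_succ (N / 2 + (m + 1)) m
      rw [show N / 2 + 1 + (m + 1) = (N / 2 + (m + 1)).succ by omega, show N / 2 + 1 + m = N / 2 + (m + 1) by omega]
      rw [this]
      push_cast
      simp only [Nat.succ_eq_add_one]
      ring
    · rw [if_neg (fun hh => hN (h2.1 hh)), if_neg hN, if_neg (fun hh => hN (h2.1 hh))]; simp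

theorem BS_eq (m : ℕ) : (1 - PowerSeries.X ^ 2) ^ (m + 1) * BS m = 1 := by
  induction m with
  | zero => rw [zero_add, pow_one]; exact BS_zero
  | succ m ih => rw [pow_succ, mul_assoc, BS_succ]; exact ih

theorem one_sub_sq_ne : (1 - PowerSeries.X ^ 2 : PowerSeries ℤ) ≠ 0 := by
  intro h
  have := BS_zero
  rw [h] at this
  simp at this

theorem partB (hA : PartA) (n : ℕ) (hn : 1 ≤ n) (γ : ℕ → ℕ → ℤ) (h : IsGamma n γ) (M : ℕ) :
    ∑ i ∈ range ((n - 1) / 2 + 1), (-1) ^ i * γ i (n - 1 - 2 * i) * (((M + i).choose (2 * i + 1) : ℕ) : ℤ) =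
      - ∑ p ∈ antidiagonal (2 * M), (-1) ^ p.2 * (((p.1 * p.2 + n - 1).choose n : ℕ) : ℤ) := by
  classical
  -- polynomial identity
  have hP : (∑ σ : Equiv.Perm (Fin n), Polynomial.C ((-1 : ℤ) ^ des σ⁻¹) * Polynomial.X ^ (des σ⁻¹ + des σ)) =
      ∑ i ∈ range ((n - 1) / 2 + 1), Polynomial.C (γ i (n - 1 - 2 * i) * (-1) ^ i) * Polynomial.X ^ (2 * i) *
        (1 - Polynomial.X ^ 2) ^ (n - 1 - 2 * i) := by
    apply Polynomial.funext
    intro x
    have := gamma_diag n hn γ h x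
    simp only [Polynomial.eval_finset_sum, Polynomial.eval_mul, Polynomial.eval_C, Polynomial.eval_pow,
      Polynomial.eval_X, Polynomial.eval_sub, Polynomial.eval_one]
    exact this
  have hP2 : (∑ σ : Equiv.Perm (Fin n), PowerSeries.C ((-1 : ℤ) ^ des σ⁻¹) * PowerSeries.X ^ (des σ⁻¹ + des σ)) =
      ∑ i ∈ range ((n - 1) / 2 + 1), PowerSeries.C (γ i (n - 1 - 2 * i) * (-1) ^ i) * PowerSeries.X ^ (2 * i) *
        (1 - PowerSeries.X ^ 2) ^ (n - 1 - 2 * i) := by
    have := congrArg (Polynomial.coeToPowerSeries.ringHom (R := ℤ)) hP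
    simpa only [map_sum, map_mul, map_pow, map_sub, map_one, Polynomial.coeToPowerSeries.ringHom_apply,
      Polynomial.coe_C, Polynomial.coe_X] using this
  set L : PowerSeries ℤ := ∑ σ : Equiv.Perm (Fin n), US n (des σ) * VS' n (des σ⁻¹) with hL
  set Rr : PowerSeries ℤ := - ∑ i ∈ range ((n - 1) / 2 + 1),
    PowerSeries.C (γ i (n - 1 - 2 * i) * (-1) ^ i) * (PowerSeries.X ^ (2 * i + 2) * BS (2 * i + 1)) with hR
  have hLR : L = Rr := by
    have hne : ((1 - PowerSeries.X ^ 2 : PowerSeries ℤ)) ^ (n + 1) ≠ 0 := pow_ne_zero _ one_sub_sq_ne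
    apply mul_left_cancel₀ hne
    have e1 : (1 - PowerSeries.X ^ 2 : PowerSeries ℤ) ^ (n + 1) * L = - (PowerSeries.X ^ 2 *
        (∑ σ : Equiv.Perm (Fin n), PowerSeries.C ((-1 : ℤ) ^ des σ⁻¹) * PowerSeries.X ^ (des σ⁻¹ + des σ))) := by
      rw [hL, mul_sum, mul_sum, ← sum_neg_distrib]
      refine sum_congr rfl (fun σ _ => ?_)
      have u1 := US_eq n (des σ) hn
      have u2 := VS'_eq n (des σ⁻¹) hn
      calc (1 - PowerSeries.X ^ 2 : PowerSeries ℤ) ^ (n + 1) * (US n (des σ) * VS' n (des σ⁻¹))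
          = ((1 - PowerSeries.X) ^ (n + 1) * US n (des σ)) * ((1 + PowerSeries.X) ^ (n + 1) * VS' n (des σ⁻¹)) := by
            rw [show (1 - PowerSeries.X ^ 2 : PowerSeries ℤ) = (1 - PowerSeries.X) * (1 + PowerSeries.X) by ring, mul_pow]
            ring
        _ = _ := by
            rw [u1, u2, neg_pow, map_pow, map_neg, map_one]
            ring
    have e2 : (1 - PowerSeries.X ^ 2 : PowerSeries ℤ) ^ (n + 1) * Rr = - (PowerSeries.X ^ 2 *
        (∑ i ∈ range ((n - 1) / 2 + 1), PowerSeries.C (γ i (n - 1 - 2 * i) * (-1) ^ i) * PowerSeries.X ^ (2 * i) *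
        (1 - PowerSeries.X ^ 2) ^ (n - 1 - 2 * i))) := by
      rw [hR, mul_neg, mul_sum, mul_sum]
      congr 1
      refine sum_congr rfl (fun i hi => ?_)
      rw [mem_range] at hi
      have hb := BS_eq (2 * i + 1)
      have hexp : n + 1 = (2 * i + 1 + 1) + (n - 1 - 2 * i) := by omega
      rw [hexp, pow_add]
      calc _ = PowerSeries.C (γ i (n - 1 - 2 * i) * (-1) ^ i) * PowerSeries.X ^ (2 * i + 2) *
            (1 - PowerSeries.X ^ 2) ^ (n - 1 - 2 * i) * ((1 - PowerSeries.X ^ 2) ^ (2 * i + 1 + 1) * BS (2 * i + 1)) := by ring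
        _ = _ := by rw [hb]; ring
    rw [e1, e2, hP2]
  have hc := congrArg (PowerSeries.coeff (2 * M)) hLR
  have c1 : PowerSeries.coeff (2 * M) L = ∑ p ∈ antidiagonal (2 * M), (-1) ^ p.2 * (((p.1 * p.2 + n - 1).choose n : ℕ) : ℤ) := by
    rw [hL, map_sum]
    simp only [PowerSeries.coeff_mul]
    rw [sum_comm]
    refine sum_congr rfl (fun p _ => ?_)
    rw [hA n p.1 p.2 hn]
    push_cast
    rw [mul_sum]
    refine sum_congr rfl (fun σ _ => ?_)
    rw [US, VS', PowerSeries.coeff_mk, PowerSeries.coeff_mk]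
    ring
  have c2 : PowerSeries.coeff (2 * M) Rr = - ∑ i ∈ range ((n - 1) / 2 + 1),
      (-1) ^ i * γ i (n - 1 - 2 * i) * (((M + i).choose (2 * i + 1) : ℕ) : ℤ) := by
    rw [hR, map_neg, map_sum]
    congr 1
    refine sum_congr rfl (fun i _ => ?_)
    rw [PowerSeries.coeff_C_mul, PowerSeries.coeff_X_pow_mul']
    split_ifs with hh
    · rw [BS, PowerSeries.coeff_mk, if_pos (by rw [Nat.even_iff]; omega)]
      rw [show (2 * M - (2 * i + 2)) / 2 + (2 * i + 1) = M + i by omega]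
      ring
    · rw [Nat.choose_eq_zero_of_lt (by omega)]; simp
  rw [c1, c2] at hc
  rw [hc]; ring

end R442.GS
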