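import Mathlib

/-! Part C of MP_f98a08: the S-fraction with coefficients `(y^h-1)(y^(h+1)-1)`. -/

namespace R442.GS

open Finset

variable {R : Type*} [CommRing R]

/-- S-fraction coefficients -/
def cc (y : R) (h : ℕ) : R := (y ^ h - 1) * (y ^ (h + 1) - 1)

def ll (y : R) (h : ℕ) : R := y ^ h + y ^ (h + 1) - y

/-- `f_0=0`, `f_{M+1} = [2M+1]_y - y^{2M+1} f_M` -/
def ff (y : R) : ℕ → R
  | 0 => 0
  | M + 1 => (∑ i ∈ range (2 * M + 1), y ^ i) - y ^ (2 * M + 1) * ff y M

/-- the array `d h M` -/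
def dd (y : R) : ℕ → ℕ → R
  | 0, 0 => 1
  | 0, _ + 1 => 0
  | 1, 0 => 0
  | 1, M + 1 => ff y (M + 1) - ff y M
  | _ + 2, 0 => 0
  | h + 2, 1 => dd y (h + 1) 0
  | h + 2, M + 2 =>
      (ll y (h + 2) - y ^ (2 * M + 3)) * dd y (h + 2) (M + 1) + y ^ (2 * M + 1) * dd y (h + 2) M
        + dd y (h + 1) (M + 1) + y * dd y (h + 1) M

theorem dd_succ_zero (y : R) (h : ℕ) : dd y (h + 1) 0 = 0 := by
  cases h <;> simp [dd]

theorem dd_succ_one (y : R) (h : ℕ) : dd y (h + 1) 1 = dd y h 0 := by
  cases h with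
  | zero => simp [dd, ff]
  | succ h => simp [dd]

theorem dd_rec (y : R) (h M : ℕ) : dd y (h + 1) (M + 2) =
    (ll y (h + 1) - y ^ (2 * M + 3)) * dd y (h + 1) (M + 1) + y ^ (2 * M + 1) * dd y (h + 1) M
        + dd y h (M + 1) + y * dd y h M := by
  cases h with
  | succ h => rw [dd]
  | zero =>
    have e1 : ∀ m : ℕ, (∑ i ∈ range (m + 2), y ^ i) - (∑ i ∈ range m, y ^ i) = y ^ m + y ^ (m + 1) := by
      intro m
      rw [sum_range_succ, sum_range_succ]; ring
    rcases M with _ | _ | M
    · simp only [dd, ff, ll, zero_add, sum_range_succ, range_zero, sum_empty]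
      simp [sum_range_succ]
      ring
    · simp only [dd, ff, ll, zero_add]
      simp [sum_range_succ]
      ring
    · simp only [dd, ff, ll, zero_add]
      have h1 := e1 (2 * M + 5)
      have h2 := e1 (2 * M + 3)
      have h3 := e1 (2 * M + 1)
      have a1 : 2 * (M + 1 + 1 + 1) + 1 = 2 * M + 7 := by ring
      have a2 : 2 * (M + 1 + 1) + 1 = 2 * M + 5 := by ring
      have a3 : 2 * (M + 1) + 1 = 2 * M + 3 := by ring
      have a4 : 2 * (M + 1 + 1) + 3 = 2 * M + 7 := by ring
      simp only [a1, a2, a3, a4]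
      linear_combination h1 - y ^ 2 * h2

/-- second ladder relation -/
def Star (y : R) (h : ℕ) : Prop := ∀ M : ℕ,
  cc y h * (dd y (h + 1) (M + 2) + y * dd y (h + 1) (M + 1)) =
    (1 - y ^ h - y ^ (h + 1) + y ^ (2 * M + 3)) * dd y h (M + 1) + (y - y ^ (2 * M + 1)) * dd y h M

def Zed (y : R) (h : ℕ) : Prop := ∀ M : ℕ,
  dd y h M = dd y (h + 1) (M + 1) - dd y (h + 1) M + cc y (h + 1) * dd y (h + 2) (M + 1)

theorem star_zero (y : R) : Star y 0 := by
  intro M
  cases M with
  | zero => simp [cc, dd]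
  | succ M => simp [cc, dd]

theorem zed_of_star (y : R) (h : ℕ) (hs : Star y h) : Zed y h := by
  have key : ∀ M : ℕ, (dd y h M - (dd y (h + 1) (M + 1) - dd y (h + 1) M + cc y (h + 1) * dd y (h + 2) (M + 1)) = 0)
      ∧ (dd y h (M + 1) - (dd y (h + 1) (M + 2) - dd y (h + 1) (M + 1) + cc y (h + 1) * dd y (h + 2) (M + 2)) = 0) := by
    intro M
    induction M with
    | zero =>
      have b0 : dd y (h + 1) 0 = 0 := dd_succ_zero y h
      have b1 : dd y (h + 1) 1 = dd y h 0 := dd_succ_one y h
      have c1 : dd y (h + 2) 1 = dd y (h + 1) 0 := dd_succ_one y (h + 1)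
      have c0 : dd y (h + 2) 0 = 0 := dd_succ_zero y (h + 1)
      have b2 := dd_rec y h 0
      have c2 := dd_rec y (h + 1) 0
      simp only [zero_add, mul_zero, pow_one] at b2 c2 ⊢
      rw [b0] at c1
      refine ⟨by rw [b1, b0, c1]; ring, ?_⟩
      rw [c2, b2, c1, c0, b1, b0]
      have : dd y h 0 * (1 - y - ll y (h + 1) + y ^ 3 - cc y (h + 1)) = 0 := by
        cases h with
        | zero => simp [ll, cc]; ring
        | succ h => rw [dd_succ_zero]; ring
      linear_combination this
    | succ M ih =>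
      refine ⟨ih.2, ?_⟩
      have r1 := dd_rec y (h + 1) (M + 1)
      have r2 := dd_rec y h (M + 1)
      have r3 := dd_rec y h M
      have r4 := hs M
      obtain ⟨E0, E1⟩ := ih
      simp only [show 2 * (M + 1) + 3 = 2 * M + 5 by ring, show 2 * (M + 1) + 1 = 2 * M + 3 by ring,
        show M + 1 + 2 = M + 3 by ring, show M + 1 + 1 = M + 2 by ring, show h + 1 + 1 = h + 2 by ring] at *
      simp only [ll, cc] at *
      linear_combination (-((y ^ (h + 1) - 1) * (y ^ (h + 1 + 1) - 1))) * r1 - r2 + y ^ 2 * r3 - y ^ 2 * r4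
        + (y ^ (h + 2) + y ^ (h + 2 + 1) - y - y ^ (2 * M + 5)) * E1 + y ^ (2 * M + 3) * E0
  intro M
  exact sub_eq_zero.1 (key M).1

theorem star_succ (y : R) (h : ℕ) (hz : Zed y h) : Star y (h + 1) := by
  intro M
  have r := dd_rec y h M
  have z1 := hz (M + 1)
  have z0 := hz M
  simp only [show M + 1 + 1 = M + 2 by ring, show h + 1 + 1 = h + 2 by ring] at *
  simp only [ll, cc] at *
  linear_combination -z1 - y * z0 - r

theorem star_all (y : R) (h : ℕ) : Star y h := by
  induction h with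
  | zero => exact star_zero y
  | succ h ih => exact star_succ y h (zed_of_star y h ih)

theorem zed_all (y : R) (h : ℕ) : Zed y h := zed_of_star y h (star_all y h)

theorem dd_lt (y : R) (h : ℕ) : ∀ M : ℕ, M < h → dd y h M = 0 := by
  induction h with
  | zero => intro M hM; omega
  | succ h ih =>
    have key : ∀ M : ℕ, (M < h + 1 → dd y (h + 1) M = 0) ∧ (M + 1 < h + 1 → dd y (h + 1) (M + 1) = 0) := by
      intro M
      induction M with
      | zero =>
        refine ⟨fun _ => dd_succ_zero y h, fun hh => ?_⟩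
        rw [zero_add, dd_succ_one]; exact ih 0 (by omega)
      | succ M ih2 =>
        refine ⟨ih2.2, fun hh => ?_⟩
        rw [show M + 1 + 1 = M + 2 by ring, dd_rec, ih2.1 (by omega), ih2.2 (by omega), ih (M + 1) (by omega),
          ih M (by omega)]
        ring
    exact fun M hM => (key M).1 hM

/-- `v h k`: coefficient of `z^k` in `V_h = W_1 ... W_h`; `V_h = V_{h-1} + c_h z V_{h+1}`. -/
def vv {A : Type*} [CommSemiring A] (c : ℕ → A) : ℕ → ℕ → A
  | 0, 0 => 1
  | 0, _ + 1 => 0
  | _ + 1, 0 => 1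
  | h + 1, k + 1 => vv c h (k + 1) + c (h + 1) * vv c (h + 2) k
  termination_by h k => (k, h)

theorem vv_zero_succ {A : Type*} [CommSemiring A] (c : ℕ → A) (k : ℕ) : vv c 0 (k + 1) = 0 := by
  rw [vv]

theorem vv_zero {A : Type*} [CommSemiring A] (c : ℕ → A) (h : ℕ) : vv c h 0 = 1 := by
  cases h <;> rw [vv]

theorem vv_succ {A : Type*} [CommSemiring A] (c : ℕ → A) (h k : ℕ) :
    vv c (h + 1) (k + 1) = vv c h (k + 1) + c (h + 1) * vv c (h + 2) k := by
  rw [vv]

/-- the array given by the continued fraction -/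
def hh (c : ℕ → R) : ℕ → ℕ → R
  | 0, 0 => 1
  | 0, _ + 1 => 0
  | _ + 1, 0 => 0
  | h + 1, M + 1 => ∑ k ∈ range (M + 1), (-1) ^ k * vv c (h + 1) k * ((M + k).choose (2 * k + h) : R)

theorem hh_eq (c : ℕ → R) (h M N : ℕ) (hN : M < N) : hh c (h + 1) (M + 1) =
    ∑ k ∈ range N, (-1) ^ k * vv c (h + 1) k * ((M + k).choose (2 * k + h) : R) := by
  rw [hh]
  refine sum_subset (fun k hk => ?_) (fun k hk hk2 => ?_)
  · rw [mem_range] at *; omega
  · rw [mem_range] at *
    rw [Nat.choose_eq_zero_of_lt (by omega)]; simp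

theorem hh_lt (c : ℕ → R) (h M : ℕ) (hM : M < h) : hh c h M = 0 := by
  rcases h with _ | h
  · omega
  rcases M with _ | M
  · rw [hh]
  · rw [hh]
    refine sum_eq_zero (fun k hk => ?_)
    rw [Nat.choose_eq_zero_of_lt (by omega)]; simp

theorem hh_zed (c : ℕ → R) (h M : ℕ) :
    hh c h M = hh c (h + 1) (M + 1) - hh c (h + 1) M + c (h + 1) * hh c (h + 2) (M + 1) := by
  have e1 : hh c (h + 1) (M + 1) - hh c (h + 1) M =
      ∑ k ∈ range (M + 2), (-1) ^ k * vv c (h + 1) k *
        (((M + k).choose (2 * k + h) : R) - (if M = 0 then 0 else ((M - 1 + k).choose (2 * k + h) : R))) := by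
    rw [hh_eq c h M (M + 2) (by omega)]
    rcases M with _ | M
    · simp [hh]
    · rw [hh_eq c h M (M + 1 + 2) (by omega), ← sum_sub_distrib]
      refine sum_congr rfl (fun k _ => ?_)
      simp
      ring
  have e2 : c (h + 1) * hh c (h + 2) (M + 1) =
      - ∑ k ∈ range (M + 1), (-1) ^ (k + 1) * (c (h + 1) * vv c (h + 2) k) * ((M + k).choose (2 * k + (h + 1)) : R) := by
    rw [hh_eq c (h + 1) M (M + 1) (by omega), mul_sum, ← sum_neg_distrib]
    refine sum_congr rfl (fun k _ => ?_)
    ring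
  rcases h with _ | h
  · -- h = 0
    rw [e1, e2]
    rw [sum_range_succ']
    simp only [vv_zero, pow_zero, mul_zero, add_zero, Nat.choose_zero_right, one_mul, mul_one, zero_add, Nat.cast_one]
    have e3 : ∀ k ∈ range (M + 1), (-1 : R) ^ (k + 1) * vv c 1 (k + 1) *
        (((M + (k + 1)).choose (2 * (k + 1)) : R) - (if M = 0 then 0 else ((M - 1 + (k + 1)).choose (2 * (k + 1)) : R)))
        = (-1) ^ (k + 1) * (c 1 * vv c 2 k) * ((M + k).choose (2 * k + 1) : R) := by
      intro k hk
      rw [show (1 : ℕ) = 0 + 1 from rfl, vv_succ, vv_zero_succ, zero_add]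
      rcases M with _ | M
      · have : k = 0 := by rw [mem_range] at hk; omega
        subst this
        simp
      · rw [if_neg (by omega)]
        have := Nat.choose_succ_succ (M + (k + 1)) (2 * k + 1)
        have h2 : M + 1 + (k + 1) = (M + (k + 1)).succ := by omega
        have h3 : 2 * (k + 1) = (2 * k + 1).succ := by omega
        have h4 : M + 1 - 1 + (k + 1) = M + (k + 1) := by omega
        have h5 : M + 1 + k = M + (k + 1) := by omega
        rw [h4, h2, h3, this, h5]
        push_cast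
        ring
    rw [sum_congr rfl e3]
    rcases M with _ | M
    · simp [hh]
    · simp [hh]
  · -- h+1
    rcases M with _ | M
    · rw [hh_lt c (h + 1) 0 (by omega), hh_lt c (h + 1 + 1) (0 + 1) (by omega), hh_lt c (h + 1 + 1) 0 (by omega),
        hh_lt c (h + 1 + 2) (0 + 1) (by omega)]
      ring
    · rw [e1, e2, hh_eq c h M (M + 1 + 2) (by omega), sum_range_succ' _ (M + 1 + 1), sum_range_succ' _ (M + 1 + 1)]
      rw [if_neg (by omega)]
      simp only [vv_zero, pow_zero, mul_zero, add_zero, one_mul, zero_add]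
      have e3 : ∀ k ∈ range (M + 1 + 1), (-1 : R) ^ (k + 1) * vv c (h + 1 + 1) (k + 1) *
        (((M + 1 + (k + 1)).choose (2 * (k + 1) + (h + 1)) : R) - (if M + 1 = 0 then 0 else ((M + 1 - 1 + (k + 1)).choose (2 * (k + 1) + (h + 1)) : R)))
        = (-1) ^ (k + 1) * vv c (h + 1) (k + 1) * ((M + (k + 1)).choose (2 * (k + 1) + h) : R)
         + (-1) ^ (k + 1) * (c (h + 1 + 1) * vv c (h + 1 + 2) k) * ((M + 1 + k).choose (2 * k + (h + 1 + 1)) : R) := by
        intro k hk
        rw [vv_succ, if_neg (by omega)]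
        have := Nat.choose_succ_succ (M + (k + 1)) (2 * (k + 1) + h)
        have h2 : M + 1 + (k + 1) = (M + (k + 1)).succ := by omega
        have h3 : 2 * (k + 1) + (h + 1) = (2 * (k + 1) + h).succ := by omega
        have h4 : M + 1 - 1 + (k + 1) = M + (k + 1) := by omega
        have h5 : M + 1 + k = M + (k + 1) := by omega
        have h6 : 2 * k + (h + 1 + 1) = 2 * (k + 1) + h := by omega
        rw [h4, h2, h3, this, h5, h6]
        push_cast
        ring
      rw [sum_congr rfl e3, sum_add_distrib]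
      have h7 : (M + 1).choose (h + 1) = M.choose h + M.choose (h + 1) := Nat.choose_succ_succ M h
      rw [h7]
      push_cast
      ring

theorem dd_eq_hh (y : R) : ∀ j h : ℕ, dd y h (h + j) = hh (cc y) h (h + j) := by
  intro j
  induction j using Nat.strong_induction_on with
  | _ j ihj =>
    intro h
    induction h with
    | zero =>
      rcases j with _ | j
      · simp [dd, hh]
      · rw [zero_add]; simp [dd, hh]
    | succ h ih =>
      have z1 := zed_all y h (h + j)
      have z2 := hh_zed (cc y) h (h + j)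
      have a1 : dd y (h + 1) (h + j) = hh (cc y) (h + 1) (h + j) := by
        rcases j with _ | j
        · rw [dd_lt y _ _ (by omega), hh_lt _ _ _ (by omega)]
        · have := ihj j (by omega) (h + 1)
          rw [show h + 1 + j = h + (j + 1) by ring] at this
          exact this
      have a2 : dd y (h + 2) (h + j + 1) = hh (cc y) (h + 2) (h + j + 1) := by
        rcases j with _ | j
        · rw [dd_lt y _ _ (by omega), hh_lt _ _ _ (by omega)]
        · have := ihj j (by omega) (h + 2)
          rw [show h + 2 + j = h + (j + 1) + 1 by ring] at this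
          exact this
      rw [show h + 1 + j = h + j + 1 by ring]
      rw [ih, z2, a1, a2] at z1
      linear_combination -z1

theorem ff_eq (y : R) (M : ℕ) : ff y M =
    ∑ k ∈ range M, (-1) ^ k * vv (cc y) 1 k * ((M + k).choose (2 * k + 1) : R) := by
  induction M with
  | zero => simp [ff]
  | succ M ih =>
    have h1 : dd y 1 (M + 1) = hh (cc y) 1 (M + 1) := by
      have := dd_eq_hh y M 1
      rwa [add_comm 1 M] at this
    rw [dd] at h1
    have h2 : ff y (M + 1) = ff y M + hh (cc y) (0 + 1) (M + 1) := by rw [zero_add, ← h1]; ring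
    rw [h2, ih, hh]
    have h3 : ∑ k ∈ range M, (-1 : R) ^ k * vv (cc y) 1 k * ((M + k).choose (2 * k + 1) : R) =
        ∑ k ∈ range (M + 1), (-1 : R) ^ k * vv (cc y) 1 k * ((M + k).choose (2 * k + 1) : R) := by
      rw [sum_range_succ, Nat.choose_eq_zero_of_lt (by omega : M + M < 2 * M + 1)]; simp
    rw [h3, ← sum_add_distrib]
    refine sum_congr rfl (fun k _ => ?_)
    have := Nat.choose_succ_succ (M + k) (2 * k)
    rw [show M + 1 + k = (M + k).succ by omega, show 2 * k + 1 = (2 * k).succ by omega, this]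
    push_cast
    simp only [add_zero, zero_add]
    ring

/-- `θ_M = Σ_{k+l=2M} (-1)^l y^{kl}` -/
def theta (y : R) (M : ℕ) : R := ∑ p ∈ antidiagonal (2 * M), (-1) ^ p.2 * y ^ (p.1 * p.2)

theorem theta_zero (y : R) : theta y 0 = 1 := by simp [theta]

theorem theta_succ (y : R) (M : ℕ) : theta y (M + 1) = 2 - y ^ (2 * M + 1) * theta y M := by
  rw [theta, show 2 * (M + 1) = 2 * M + 1 + 1 by ring, Finset.Nat.antidiagonal_succ_succ']
  simp only [sum_cons, sum_map, Function.Embedding.prodMap, Function.Embedding.coeFn_mk, Prod.map,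
    zero_mul, mul_zero, pow_zero, mul_one, one_mul]
  have h1 : ∀ x ∈ antidiagonal (2 * M), (-1 : R) ^ (x.2 + 1) * y ^ ((x.1 + 1) * (x.2 + 1)) =
      - (y ^ (2 * M + 1) * ((-1) ^ x.2 * y ^ (x.1 * x.2))) := by
    intro x hx
    rw [HasAntidiagonal.mem_antidiagonal] at hx
    rw [show (x.1 + 1) * (x.2 + 1) = x.1 * x.2 + (2 * M + 1) by rw [← hx]; ring, pow_add, pow_succ]
    ring
  have h2 := sum_congr rfl h1
  rw [theta, mul_sum]
  simp only [Nat.succ_eq_add_one]
  rw [h2, sum_neg_distrib]
  have : (-1 : R) ^ (2 * M + 1 + 1) = 1 := by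
    rw [show 2 * M + 1 + 1 = 2 * (M + 1) by ring, pow_mul]; simp
  rw [this]
  ring

/-- Main identity of part C. -/
theorem partC (y : R) (M : ℕ) :
    (y - 1) * ∑ k ∈ range M, (-1) ^ k * vv (cc y) 1 k * ((M + k).choose (2 * k + 1) : R) = 1 - theta y M := by
  rw [← ff_eq]
  induction M with
  | zero => simp [ff, theta_zero]
  | succ M ih =>
    rw [theta_succ, ff]
    have := mul_geom_sum y (2 * M + 1)
    linear_combination this - y ^ (2 * M + 1) * ih

end R442.GS
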