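import Mathlib
import Pool.Agent.R442.GS.C

/-! Part D of MP_f98a08: comparison of the two continued-fraction type series. -/

namespace R442.GS

open Finset

section order
variable {A : Type*} [CommSemiring A]

/-- additive divisibility preorder -/
def ale (a b : A) : Prop := ∃ c, b = a + c

theorem ale_refl (a : A) : ale a a := ⟨0, by simp⟩
theorem ale_trans {a b c : A} (h1 : ale a b) (h2 : ale b c) : ale a c := by
  obtain ⟨u, rfl⟩ := h1; obtain ⟨v, rfl⟩ := h2; exact ⟨u + v, by ring⟩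
theorem ale_add {a b c d : A} (h1 : ale a b) (h2 : ale c d) : ale (a + c) (b + d) := by
  obtain ⟨u, rfl⟩ := h1; obtain ⟨v, rfl⟩ := h2; exact ⟨u + v, by ring⟩
theorem ale_mul {a b c d : A} (h1 : ale a b) (h2 : ale c d) : ale (a * c) (b * d) := by
  obtain ⟨u, rfl⟩ := h1; obtain ⟨v, rfl⟩ := h2; exact ⟨a * v + u * c + u * v, by ring⟩
theorem ale_self_add (a b : A) : ale a (a + b) := ⟨b, rfl⟩
theorem ale_sum {ι : Type*} (s : Finset ι) (f g : ι → A) (h : ∀ i ∈ s, ale (f i) (g i)) :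
    ale (∑ i ∈ s, f i) (∑ i ∈ s, g i) := by
  classical
  induction s using Finset.induction_on with
  | empty => exact ⟨0, by simp⟩
  | insert a s ha ih =>
    rw [sum_insert ha, sum_insert ha]
    exact ale_add (h a (mem_insert_self _ _)) (ih (fun i hi => h i (mem_insert_of_mem hi)))
theorem ale_pow_le {a : A} (h : ale 1 a) {m n : ℕ} (hmn : m ≤ n) : ale (a ^ m) (a ^ n) := by
  obtain ⟨k, rfl⟩ := Nat.exists_eq_add_of_le hmn
  induction k with
  | zero => exact ale_refl _
  | succ k ih =>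
    refine ale_trans (ih (by omega)) ?_
    have := ale_mul (ale_refl (a ^ (m + k))) h
    rw [mul_one] at this
    rwa [← add_assoc, pow_succ]

end order

section RS
variable {A : Type*} [CommSemiring A]

/-- coefficients of `R = 1 + z e^2 R^2 (1+(1+e)R)` -/
noncomputable def rr (e : A) : ℕ → A
  | 0 => 1
  | k + 1 => e ^ 2 * (∑ i : Fin (k + 1), rr e i * rr e (k - i)) +
      (1 + e) * e ^ 2 * (∑ i : Fin (k + 1), rr e i * ∑ j : Fin (k - i + 1), rr e j * rr e (k - i - j))
  decreasing_by all_goals omega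

noncomputable def RS (e : A) : PowerSeries A := PowerSeries.mk (rr e)

theorem coeff_mul_fin (f g : ℕ → A) (k : ℕ) : PowerSeries.coeff k (PowerSeries.mk f * PowerSeries.mk g)
    = ∑ i : Fin (k + 1), f i * g (k - i) := by
  rw [PowerSeries.coeff_mul, Finset.Nat.sum_antidiagonal_eq_sum_range_succ (fun i j => PowerSeries.coeff i (PowerSeries.mk f) * PowerSeries.coeff j (PowerSeries.mk g)),
    ← Fin.sum_univ_eq_sum_range (fun i => PowerSeries.coeff i (PowerSeries.mk f) * PowerSeries.coeff (k - i) (PowerSeries.mk g))]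
  simp

/-- `Q = e^2 R^2 + (1+e)e^2 R^3` -/
noncomputable def QS (e : A) : PowerSeries A :=
  PowerSeries.C (e ^ 2) * RS e ^ 2 + PowerSeries.C ((1 + e) * e ^ 2) * RS e ^ 3

theorem RS_eq (e : A) : RS e = 1 + PowerSeries.X * QS e := by
  ext k
  rcases k with _ | k
  · simp [RS, rr]
  · rw [map_add, PowerSeries.coeff_succ_X_mul, QS, map_add, PowerSeries.coeff_C_mul, PowerSeries.coeff_C_mul]
    have h1 : PowerSeries.coeff k (RS e ^ 2) = ∑ i : Fin (k + 1), rr e i * rr e (k - i) := by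
      rw [pow_two, RS, coeff_mul_fin]
    have h2 : PowerSeries.coeff k (RS e ^ 3) =
        ∑ i : Fin (k + 1), rr e i * ∑ j : Fin (k - i + 1), rr e j * rr e (k - i - j) := by
      have : RS e ^ 3 = PowerSeries.mk (rr e) * PowerSeries.mk (fun m => ∑ j : Fin (m + 1), rr e j * rr e (m - j)) := by
        have h3 : PowerSeries.mk (fun m => ∑ j : Fin (m + 1), rr e j * rr e (m - j)) = RS e * RS e := by
          ext m
          rw [PowerSeries.coeff_mk, RS, coeff_mul_fin]
        rw [h3, RS]; ring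
      rw [this, coeff_mul_fin]
    rw [h1, h2, RS, PowerSeries.coeff_mk, rr]
    simp [PowerSeries.coeff_one]

theorem one_ale_RS (e : A) : ale 1 (RS e) := ⟨_, RS_eq e⟩

theorem RS_pow (e : A) (m : ℕ) : RS e ^ m = 1 + PowerSeries.X * (QS e * ∑ i ∈ range m, RS e ^ i) := by
  induction m with
  | zero => simp
  | succ m ih =>
    have h : RS e ^ (m + 1) = RS e ^ m + PowerSeries.X * (QS e * RS e ^ m) := by
      have h1 : RS e ^ (m + 1) = RS e ^ m * RS e := pow_succ _ _
      have h2 : RS e ^ m * RS e = RS e ^ m * (1 + PowerSeries.X * QS e) := by rw [← RS_eq e]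
      rw [h1, h2]; ring
    rw [h, sum_range_succ]
    have h3 : RS e ^ m + PowerSeries.X * (QS e * RS e ^ m) =
      (1 + PowerSeries.X * (QS e * ∑ i ∈ range m, RS e ^ i)) + PowerSeries.X * (QS e * RS e ^ m) := by
      rw [← ih]
    rw [h3]; ring

/-- `p_h = (1+e)^h - 1` -/
def pp (e : A) (h : ℕ) : A := ∑ i ∈ range h, e * (1 + e) ^ i

theorem pp_eq (e : A) (h : ℕ) : (1 + e) ^ h = 1 + pp e h := by
  induction h with
  | zero => simp [pp]
  | succ h ih =>
    have : pp e (h + 1) = pp e h + e * (1 + e) ^ h := by rw [pp, sum_range_succ, ← pp]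
    rw [this, pow_succ]
    have h2 : (1 + e) ^ h * (1 + e) = (1 + e) ^ h + e * (1 + e) ^ h := by ring
    rw [h2]
    nth_rewrite 1 [ih]
    ring

theorem pp_ge (e : A) (h : ℕ) : ale ((h : A) * e) (pp e h) := by
  have h1 : (h : A) * e = ∑ i ∈ range h, e := by simp
  rw [h1, pp]
  refine ale_sum _ _ _ (fun i _ => ?_)
  rw [pp_eq]
  exact ⟨e * pp e i, by ring⟩

theorem pp_ge_two (e : A) (h : ℕ) : ale (e * (2 + e)) (pp e (h + 2)) := by
  have : pp e (h + 2) = e + e * (1 + e) + ∑ i ∈ range h, e * (1 + e) ^ (i + 2) := by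
    rw [pp, sum_range_succ', sum_range_succ']; ring
  rw [this]
  exact ⟨∑ i ∈ range h, e * (1 + e) ^ (i + 2), by ring⟩

def c0 (e : A) (h : ℕ) : A := pp e h * pp e (h + 1)

theorem c0_ge (e : A) (h : ℕ) : ale (((h + 1 : ℕ) : A) * ((2 + e) * e ^ 2)) (c0 e (h + 1)) := by
  have := ale_mul (pp_ge e (h + 1)) (pp_ge_two e h)
  have h2 : ((h + 1 : ℕ) : A) * ((2 + e) * e ^ 2) = ((h + 1 : ℕ) : A) * e * (e * (2 + e)) := by ring
  rw [h2]; exact this

theorem ale_C {a b : A} (h : ale a b) : ale (PowerSeries.C a) (PowerSeries.C b) := by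
  obtain ⟨c, rfl⟩ := h
  exact ⟨PowerSeries.C c, by simp⟩

theorem ale_coeff {P Q : PowerSeries A} (h : ale P Q) (k : ℕ) :
    ale (PowerSeries.coeff k P) (PowerSeries.coeff k Q) := by
  obtain ⟨c, rfl⟩ := h
  exact ⟨PowerSeries.coeff k c, by simp⟩

def TT : ℕ → ℕ
  | 0 => 0
  | h + 1 => TT h + (h + 1)

theorem main_step (e : A) (h : ℕ) :
    ale ((QS e * ∑ i ∈ range (h + 1), RS e ^ i) * RS e ^ TT h)
      (PowerSeries.C (c0 e (h + 1)) * RS e ^ TT (h + 2)) := by
  have hR := one_ale_RS e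
  have q1 : ale (QS e) (PowerSeries.C ((2 + e) * e ^ 2) * RS e ^ 3) := by
    have h1 : PowerSeries.C ((2 + e) * e ^ 2) * RS e ^ 3 =
        PowerSeries.C (e ^ 2) * RS e ^ 3 + PowerSeries.C ((1 + e) * e ^ 2) * RS e ^ 3 := by
      rw [show (2 + e) * e ^ 2 = e ^ 2 + (1 + e) * e ^ 2 by ring, map_add]; ring
    rw [h1, QS]
    exact ale_add (ale_mul (ale_refl _) (ale_pow_le hR (by omega))) (ale_refl _)
  have q2 : ale (∑ i ∈ range (h + 1), RS e ^ i) (((h + 1 : ℕ) : PowerSeries A) * RS e ^ h) := by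
    have h1 : ((h + 1 : ℕ) : PowerSeries A) * RS e ^ h = ∑ i ∈ range (h + 1), RS e ^ h := by simp
    rw [h1]
    refine ale_sum _ _ _ (fun i hi => ale_pow_le hR ?_)
    rw [mem_range] at hi; omega
  have q3 := ale_mul (ale_mul q1 q2) (ale_refl (RS e ^ TT h))
  refine ale_trans q3 ?_
  have h4 : PowerSeries.C ((2 + e) * e ^ 2) * RS e ^ 3 * (((h + 1 : ℕ) : PowerSeries A) * RS e ^ h) * RS e ^ TT h
     = PowerSeries.C (((h + 1 : ℕ) : A) * ((2 + e) * e ^ 2)) * RS e ^ (3 + h + TT h) := by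
    rw [pow_add, pow_add, map_mul PowerSeries.C ((h + 1 : ℕ) : A), map_natCast]
    ring
  rw [h4]
  refine ale_mul (ale_C (c0_ge e h)) (ale_pow_le hR ?_)
  simp only [TT]
  omega

theorem vv_ge (e : A) : ∀ k h : ℕ, ale (PowerSeries.coeff k (RS e ^ TT h)) (vv (c0 e) h k) := by
  intro k
  induction k with
  | zero =>
    intro h
    rw [vv_zero, RS_pow]
    simp
    exact ale_refl 1
  | succ k ihk =>
    intro h
    induction h with
    | zero => rw [vv_zero_succ]; simp [TT, PowerSeries.coeff_one]; exact ale_refl 0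
    | succ h ih =>
      rw [vv_succ]
      have h1 : RS e ^ TT (h + 1) = RS e ^ TT h + PowerSeries.X * ((QS e * ∑ i ∈ range (h + 1), RS e ^ i) * RS e ^ TT h) := by
        rw [TT, pow_add]
        rw [RS_pow e (h + 1)]
        ring
      rw [h1, map_add, PowerSeries.coeff_succ_X_mul]
      refine ale_add ih ?_
      refine ale_trans (ale_coeff (main_step e h) k) ?_
      rw [PowerSeries.coeff_C_mul]
      exact ale_mul (ale_refl _) (ihk (h + 2))

theorem rr_ale (e : A) (k : ℕ) : ale (rr e k) (vv (c0 e) 1 k) := by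
  have := vv_ge e k 1
  simpa [TT, RS] using this

end RS

end R442.GS
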