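import Mathlib
import Pool.Agent.R442.GS.D

/-! Part D2: the separable series `S = e R`, in powers of `x`. -/

namespace R442.GS

open Finset

/-- `e = x/(1-x)` -/
noncomputable def ee : PowerSeries ℕ := PowerSeries.mk (fun n => if n = 0 then 0 else 1)

theorem ee_eq : ee = PowerSeries.X * (1 + ee) := by
  ext n
  rcases n with _ | n
  · simp [ee]
  · rw [PowerSeries.coeff_succ_X_mul, map_add, ee, PowerSeries.coeff_mk, PowerSeries.coeff_mk, PowerSeries.coeff_one]
    rcases n with _ | n <;> simp

/-- `S = e R` -/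
noncomputable def SS : PowerSeries (PowerSeries ℕ) := PowerSeries.C ee * RS ee

theorem SS_eq : SS = PowerSeries.C PowerSeries.X + PowerSeries.C PowerSeries.X * SS +
    PowerSeries.X * (PowerSeries.C PowerSeries.X * (SS * SS) + SS * (SS * SS)) := by
  set Y : PowerSeries (PowerSeries ℕ) := PowerSeries.C PowerSeries.X +
    PowerSeries.X * (PowerSeries.C PowerSeries.X * (SS * SS) + SS * (SS * SS)) with hY
  have h1 : SS = PowerSeries.C (1 + ee) * Y := by
    have e1 : SS = PowerSeries.C ee * (1 + PowerSeries.X * QS ee) := by rw [SS, ← RS_eq ee]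
    have e2 : PowerSeries.C (1 + ee) * PowerSeries.C (PowerSeries.X : PowerSeries ℕ) = PowerSeries.C ee := by
      rw [← map_mul]
      congr 1
      rw [mul_comm]; exact ee_eq.symm
    rw [hY, mul_add, e2, mul_left_comm, mul_add, ← mul_assoc (PowerSeries.C (1 + ee)), e2]
    conv_lhs => rw [e1, mul_add, mul_one, mul_left_comm]
    congr 2
    rw [QS, SS]
    simp only [map_mul, map_pow]
    ring
  have h2 : PowerSeries.C (1 + ee) = 1 + PowerSeries.C (PowerSeries.X : PowerSeries ℕ) * PowerSeries.C (1 + ee) := by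
    rw [← map_mul, ← ee_eq, map_add, map_one]
  have h3 : SS = Y + PowerSeries.C PowerSeries.X * SS := by
    have : SS = (1 + PowerSeries.C (PowerSeries.X : PowerSeries ℕ) * PowerSeries.C (1 + ee)) * Y := by
      rw [← h2]; exact h1
    rw [add_mul, one_mul, mul_assoc, ← h1] at this
    exact this
  have h4 : Y + PowerSeries.C PowerSeries.X * SS = PowerSeries.C PowerSeries.X + PowerSeries.C PowerSeries.X * SS +
    PowerSeries.X * (PowerSeries.C PowerSeries.X * (SS * SS) + SS * (SS * SS)) := by
    rw [hY]; ring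
  rw [← h4]; exact h3

/-- column: coefficient of `x^n`, as a series in `z` -/
noncomputable def col (n : ℕ) (F : PowerSeries (PowerSeries ℕ)) : PowerSeries ℕ :=
  PowerSeries.mk (fun k => PowerSeries.coeff n (PowerSeries.coeff k F))

theorem col_add (n : ℕ) (F G : PowerSeries (PowerSeries ℕ)) : col n (F + G) = col n F + col n G := by
  ext k; simp [col]

theorem col_mul (n : ℕ) (F G : PowerSeries (PowerSeries ℕ)) :
    col n (F * G) = ∑ p ∈ antidiagonal n, col p.1 F * col p.2 G := by
  ext k
  simp only [col, PowerSeries.coeff_mk, PowerSeries.coeff_mul, map_sum]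
  rw [sum_comm]

theorem col_X_mul (n : ℕ) (F : PowerSeries (PowerSeries ℕ)) :
    col n (PowerSeries.X * F) = PowerSeries.X * col n F := by
  ext k
  rcases k with _ | k
  · simp [col]
  · simp [col, PowerSeries.coeff_succ_X_mul]

theorem col_CX_mul (n : ℕ) (F : PowerSeries (PowerSeries ℕ)) :
    col (n + 1) (PowerSeries.C PowerSeries.X * F) = col n F := by
  ext k
  simp [col, PowerSeries.coeff_C_mul, PowerSeries.coeff_succ_X_mul]

theorem col_CX (n : ℕ) : col (n + 2) (PowerSeries.C PowerSeries.X) = 0 := by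
  ext k
  simp only [col, PowerSeries.coeff_mk, PowerSeries.coeff_C, map_zero]
  split_ifs
  · simp [PowerSeries.coeff_X]
  · simp

theorem col_CX_one : col 1 (PowerSeries.C PowerSeries.X) = 1 := by
  ext k
  simp only [col, PowerSeries.coeff_mk, PowerSeries.coeff_C, PowerSeries.coeff_one]
  split_ifs <;> simp

theorem col_SS_zero : col 0 SS = 0 := by
  ext k
  simp only [col, PowerSeries.coeff_mk, SS, PowerSeries.coeff_C_mul, map_zero]
  rw [PowerSeries.coeff_mul]
  simp [ee]

theorem col_SS_one : col 1 SS = 1 := by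
  rw [SS_eq, col_add, col_add, col_CX_one, col_X_mul, col_add, show (1 : ℕ) = 0 + 1 from rfl, col_CX_mul,
    col_CX_mul, col_mul, col_mul, col_SS_zero]
  rw [show (HasAntidiagonal.antidiagonal (0 + 1) : Finset (ℕ × ℕ)) = {(0, 1), (1, 0)} from rfl]
  simp [col_SS_zero, col_mul]

theorem col_SS_rec (n : ℕ) : col (n + 2) SS = col (n + 1) SS +
    PowerSeries.X * ((∑ p ∈ antidiagonal (n + 1), col p.1 SS * col p.2 SS) +
      ∑ p ∈ antidiagonal (n + 2), ∑ r ∈ antidiagonal p.2, col p.1 SS * (col r.1 SS * col r.2 SS)) := by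
  conv_lhs => rw [SS_eq]
  rw [col_add, col_add, col_CX, col_X_mul, col_add, show n + 2 = n + 1 + 1 from rfl, col_CX_mul, col_CX_mul,
    col_mul, col_mul, zero_add]
  congr 3
  refine sum_congr rfl (fun p _ => ?_)
  rw [col_mul, mul_sum]

end R442.GS
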