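import Mathlib
import Pool.Agent.R442.GS.Stm

/-! Part E of MP_f98a08: separable permutations. -/

namespace R442.GS

open Finset

/-! ### the structure lemma -/

def Av {n : ℕ} (f : Fin n → ℤ) : Prop :=
  (¬ ∃ a b c d : Fin n, a < b ∧ b < c ∧ c < d ∧ f c < f a ∧ f a < f d ∧ f d < f b) ∧
  (¬ ∃ a b c d : Fin n, a < b ∧ b < c ∧ c < d ∧ f b < f d ∧ f d < f a ∧ f a < f c)

def UpCut {n : ℕ} (f : Fin n → ℤ) (i : ℕ) : Prop := ∀ p q : Fin n, p.val < i → i ≤ q.val → f p < f q

theorem Av.neg {n : ℕ} {f : Fin n → ℤ} (h : Av f) : Av (fun x => - f x) := by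
  constructor
  · rintro ⟨a, b, c, d, h1, h2, h3, h4, h5, h6⟩
    exact h.2 ⟨a, b, c, d, h1, h2, h3, by linarith, by linarith, by linarith⟩
  · rintro ⟨a, b, c, d, h1, h2, h3, h4, h5, h6⟩
    exact h.1 ⟨a, b, c, d, h1, h2, h3, by linarith, by linarith, by linarith⟩

theorem Av.res {n : ℕ} {f : Fin (n + 1) → ℤ} (h : Av f) : Av (fun x : Fin n => f x.castSucc) := by
  constructor
  · rintro ⟨a, b, c, d, h1, h2, h3, h4⟩
    exact h.1 ⟨a.castSucc, b.castSucc, c.castSucc, d.castSucc, h1, h2, h3, h4⟩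
  · rintro ⟨a, b, c, d, h1, h2, h3, h4⟩
    exact h.2 ⟨a.castSucc, b.castSucc, c.castSucc, d.castSucc, h1, h2, h3, h4⟩

theorem cut_step {n : ℕ} (f : Fin (n + 1) → ℤ) (hf : Function.Injective f) (hav : Av f)
    (hex : ∃ i, 0 < i ∧ i < n ∧ UpCut (fun x : Fin n => f x.castSucc) i) :
    ∃ i, 0 < i ∧ i < n + 1 ∧ (UpCut f i ∨ UpCut (fun x => - f x) i) := by
  classical
  obtain ⟨h0, hn, hc⟩ := Nat.find_spec hex
  set i := Nat.find hex with hi
  have hmin : ∀ k, k < i → ¬ (0 < k ∧ k < n ∧ UpCut (fun x : Fin n => f x.castSucc) k) := fun k hk => Nat.find_min hex hk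
  set v := f (Fin.last n) with hv
  have hne : ∀ p : Fin n, f p.castSucc ≠ v := by
    intro p hp
    have := hf hp
    exact absurd this (Fin.castSucc_lt_last p).ne
  by_cases hA : ∀ p : Fin n, p.val < i → f p.castSucc < v
  · refine ⟨i, h0, by omega, Or.inl ?_⟩
    intro p q hp hq
    have hpn : p.val < n := by omega
    have hp' : p = (⟨p.val, hpn⟩ : Fin n).castSucc := by ext; simp
    rcases Fin.eq_castSucc_or_eq_last q with ⟨q', rfl⟩ | rfl
    · rw [hp']; exact hc ⟨p.val, hpn⟩ q' hp hq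
    · rw [hp']; exact hA ⟨p.val, hpn⟩ hp
  push Not at hA
  obtain ⟨a0, ha0, ha0v⟩ := hA
  have ha0v' : v < f a0.castSucc := lt_of_le_of_ne ha0v (fun h => hne a0 h.symm)
  by_cases hB : ∀ p : Fin n, p.val < i → v < f p.castSucc
  · refine ⟨n, by omega, by omega, Or.inr ?_⟩
    intro p q hp hq
    have hq' : q = Fin.last n := by ext; simp; omega
    have hp' : p = (⟨p.val, hp⟩ : Fin n).castSucc := by ext; simp
    show - f p < - f q
    rw [hq', hp']
    have : v < f (⟨p.val, hp⟩ : Fin n).castSucc := by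
      by_cases hpi : p.val < i
      · exact hB ⟨p.val, hp⟩ hpi
      · exact lt_trans ha0v' (hc a0 ⟨p.val, hp⟩ ha0 (not_lt.1 hpi))
    linarith
  push Not at hB
  obtain ⟨l0, hl0, hl0v⟩ := hB
  have hl0v' : f l0.castSucc < v := lt_of_le_of_ne hl0v (hne l0)
  exfalso
  -- no high before low
  have hord : ∀ a b : Fin n, a.val < i → b.val < i → v < f a.castSucc → f b.castSucc < v → b < a := by
    intro a b ha hb hva hvb
    by_contra hab
    have hab' : a < b := by
      rcases lt_trichotomy a b with h | h | h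
      · exact h
      · rw [h] at hva; exact absurd (lt_trans hva hvb) (lt_irrefl _)
      · exact absurd h hab
    refine hav.2 ⟨a.castSucc, b.castSucc, (⟨i, hn⟩ : Fin n).castSucc, Fin.last n, hab', ?_, Fin.castSucc_lt_last _,
      hvb, hva, hc a ⟨i, hn⟩ ha le_rfl⟩
    exact hb
  have hexk : ∃ k, ∃ h : k < n, k < i ∧ v < f (⟨k, h⟩ : Fin n).castSucc := ⟨a0.val, a0.2, ha0, ha0v'⟩
  obtain ⟨hk1, hk2, hk3⟩ := Nat.find_spec hexk
  set k := Nat.find hexk with hk
  have hkmin : ∀ m, m < k → ¬ ∃ h : m < n, m < i ∧ v < f (⟨m, h⟩ : Fin n).castSucc := fun m hm => Nat.find_min hexk hm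
  have hlk : l0.val < k := hord ⟨k, hk1⟩ l0 hk2 hl0 hk3 hl0v'
  refine hmin k hk2 ⟨by omega, hk1, ?_⟩
  intro p q hp hq
  have hpv : f p.castSucc < v := by
    have := hkmin p.val hp
    push Not at this
    have h2 := this p.2 (by omega)
    exact lt_of_le_of_ne h2 (hne p)
  by_cases hqi : q.val < i
  · have hqv : v < f q.castSucc := by
      by_contra hcon
      have hq2 : f q.castSucc < v := lt_of_le_of_ne (not_lt.1 hcon) (hne q)
      have := hord ⟨k, hk1⟩ q hk2 hqi hk3 hq2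
      have h3 : q.val < k := this
      omega
    exact lt_trans hpv hqv
  · exact hc p q (by omega) (not_lt.1 hqi)

theorem cut_exists (n : ℕ) : ∀ (f : Fin (n + 2) → ℤ), Function.Injective f → Av f →
    ∃ i, 0 < i ∧ i < n + 2 ∧ (UpCut f i ∨ UpCut (fun x => - f x) i) := by
  induction n with
  | zero =>
    intro f hf _
    have h01 : f 0 ≠ f 1 := fun h => absurd (hf h) (by decide)
    refine ⟨1, by omega, by omega, ?_⟩
    rcases lt_or_gt_of_ne h01 with h | h
    · left
      intro p q hp hq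
      have hp' : p = 0 := by ext; simp; omega
      have hq' : q = 1 := by ext; simp; omega
      rw [hp', hq']; exact h
    · right
      intro p q hp hq
      have hp' : p = 0 := by ext; simp; omega
      have hq' : q = 1 := by ext; simp; omega
      show - f p < - f q
      rw [hp', hq']; linarith
  | succ n ih =>
    intro f hf hav
    have hinj : Function.Injective (fun x : Fin (n + 2) => f x.castSucc) := by
      intro a b hab
      exact Fin.castSucc_injective _ (hf hab)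
    obtain ⟨i, hi0, hin, hcut⟩ := ih (fun x : Fin (n + 2) => f x.castSucc) hinj hav.res
    rcases hcut with hcut | hcut
    · exact cut_step f hf hav ⟨i, hi0, hin, hcut⟩
    · have hf' : Function.Injective (fun x => - f x) := by
        intro a b hab
        exact hf (neg_injective hab)
      obtain ⟨k, hk0, hkn, h⟩ := cut_step (fun x => - f x) hf' hav.neg ⟨i, hi0, hin, hcut⟩
      refine ⟨k, hk0, hkn, ?_⟩
      rcases h with h | h
      · exact Or.inr h
      · left
        simpa using h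

/-! ### permutations -/

def asc {n : ℕ} (σ : Equiv.Perm (Fin n)) : ℕ :=
  (univ.filter fun i : Fin n => ∃ h : i.val + 1 < n, σ i < σ ⟨i.val + 1, h⟩).card

def Cut {n : ℕ} (σ : Equiv.Perm (Fin n)) (i : ℕ) : Prop := ∀ p : Fin n, p.val < i → (σ p).val < i

instance {n : ℕ} (σ : Equiv.Perm (Fin n)) (i : ℕ) : Decidable (Cut σ i) := by
  unfold Cut; infer_instance

def Dec {n : ℕ} (σ : Equiv.Perm (Fin n)) : Prop := ∃ i, 0 < i ∧ i < n ∧ Cut σ i

def dsum {i j : ℕ} (α : Equiv.Perm (Fin i)) (β : Equiv.Perm (Fin j)) : Equiv.Perm (Fin (i + j)) :=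
  finSumFinEquiv.permCongr (Equiv.Perm.sumCongr α β)

theorem dsum_cast {i j : ℕ} (α : Equiv.Perm (Fin i)) (β : Equiv.Perm (Fin j)) (x : Fin i) :
    dsum α β (Fin.castAdd j x) = Fin.castAdd j (α x) := by
  simp [dsum, Equiv.permCongr_apply]

theorem dsum_nat {i j : ℕ} (α : Equiv.Perm (Fin i)) (β : Equiv.Perm (Fin j)) (y : Fin j) :
    dsum α β (Fin.natAdd i y) = Fin.natAdd i (β y) := by
  simp [dsum, Equiv.permCongr_apply]

theorem dsum_inj {i j : ℕ} {α α' : Equiv.Perm (Fin i)} {β β' : Equiv.Perm (Fin j)}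
    (h : dsum α β = dsum α' β') : α = α' ∧ β = β' := by
  constructor
  · ext x
    have := congrArg (fun s => s (Fin.castAdd j x)) h
    simp only [dsum_cast] at this
    have := congrArg Fin.val this
    simpa using this
  · ext y
    have := congrArg (fun s => s (Fin.natAdd i y)) h
    simp only [dsum_nat] at this
    have := congrArg Fin.val this
    simpa using this

theorem exists_dsum {i j : ℕ} (σ : Equiv.Perm (Fin (i + j))) (h : Cut σ i) :
    ∃ (α : Equiv.Perm (Fin i)) (β : Equiv.Perm (Fin j)), σ = dsum α β := by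
  have h1 : Set.MapsTo (finSumFinEquiv.symm.permCongr σ) (Set.range Sum.inl) (Set.range (Sum.inl : Fin i → Fin i ⊕ Fin j)) := by
    rintro _ ⟨x, rfl⟩
    rw [Equiv.permCongr_apply]
    simp only [Equiv.symm_symm, finSumFinEquiv_apply_left]
    have h2 := h (Fin.castAdd j x) (by simp)
    refine ⟨⟨(σ (Fin.castAdd j x)).val, h2⟩, ?_⟩
    have h3 : σ (Fin.castAdd j x) = Fin.castAdd j ⟨(σ (Fin.castAdd j x)).val, h2⟩ := by ext; simp
    rw [Equiv.eq_symm_apply, finSumFinEquiv_apply_left]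
    exact h3.symm
  obtain ⟨⟨α, β⟩, h2⟩ := Equiv.Perm.mem_sumCongrHom_range_of_perm_mapsTo_inl h1
  refine ⟨α, β, ?_⟩
  have h3 : Equiv.Perm.sumCongr α β = finSumFinEquiv.symm.permCongr σ := h2
  rw [dsum, h3]
  ext x
  simp [Equiv.permCongr_apply]

theorem cut_dsum {i j : ℕ} (α : Equiv.Perm (Fin i)) (β : Equiv.Perm (Fin j)) : Cut (dsum α β) i := by
  intro p hp
  have : p = Fin.castAdd j ⟨p.val, hp⟩ := by ext; simp
  rw [this, dsum_cast]
  simp

theorem cut_dsum_iff {i j k : ℕ} (α : Equiv.Perm (Fin i)) (β : Equiv.Perm (Fin j)) (hk : k < i) :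
    Cut (dsum α β) k ↔ Cut α k := by
  constructor
  · intro h x hx
    have := h (Fin.castAdd j x) (by simpa using hx)
    rw [dsum_cast] at this
    simpa using this
  · intro h p hp
    have : p = Fin.castAdd j ⟨p.val, by omega⟩ := by ext; simp
    rw [this, dsum_cast]
    simpa using h ⟨p.val, by omega⟩ hp

theorem dsum_val_ge {i j : ℕ} (α : Equiv.Perm (Fin i)) (β : Equiv.Perm (Fin j)) (p : Fin (i + j)) (hp : i ≤ p.val) :
    i ≤ (dsum α β p).val := by
  have : p = Fin.natAdd i ⟨p.val - i, by omega⟩ := by ext; simp; omega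
  rw [this, dsum_nat]
  simp

theorem sep_dsum {i j : ℕ} (α : Equiv.Perm (Fin i)) (β : Equiv.Perm (Fin j)) :
    Sep (dsum α β) ↔ Sep α ∧ Sep β := by
  have hlow := cut_dsum α β
  have hhigh := dsum_val_ge α β
  constructor
  · intro h
    refine ⟨⟨?_, ?_⟩, ⟨?_, ?_⟩⟩
    · rintro ⟨a, b, c, d, h1, h2, h3, h4, h5, h6⟩
      refine h.1 ⟨Fin.castAdd j a, Fin.castAdd j b, Fin.castAdd j c, Fin.castAdd j d, ?_⟩
      simp only [dsum_cast]
      exact ⟨h1, h2, h3, h4, h5, h6⟩
    · rintro ⟨a, b, c, d, h1, h2, h3, h4, h5, h6⟩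
      refine h.2 ⟨Fin.castAdd j a, Fin.castAdd j b, Fin.castAdd j c, Fin.castAdd j d, ?_⟩
      simp only [dsum_cast]
      exact ⟨h1, h2, h3, h4, h5, h6⟩
    · rintro ⟨a, b, c, d, h1, h2, h3, h4, h5, h6⟩
      refine h.1 ⟨Fin.natAdd i a, Fin.natAdd i b, Fin.natAdd i c, Fin.natAdd i d, ?_⟩
      simp only [dsum_nat]
      rw [Fin.lt_def] at h1 h2 h3 h4 h5 h6
      refine ⟨?_, ?_, ?_, ?_, ?_, ?_⟩ <;> rw [Fin.lt_def] <;> simp <;> omega
    · rintro ⟨a, b, c, d, h1, h2, h3, h4, h5, h6⟩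
      refine h.2 ⟨Fin.natAdd i a, Fin.natAdd i b, Fin.natAdd i c, Fin.natAdd i d, ?_⟩
      simp only [dsum_nat]
      rw [Fin.lt_def] at h1 h2 h3 h4 h5 h6
      refine ⟨?_, ?_, ?_, ?_, ?_, ?_⟩ <;> rw [Fin.lt_def] <;> simp <;> omega
  · rintro ⟨hα, hβ⟩
    -- a quadruple lies in one block
    have blockL : ∀ p : Fin (i + j), p.val < i → ∃ x : Fin i, p = Fin.castAdd j x :=
      fun p hp => ⟨⟨p.val, hp⟩, by ext; simp⟩
    have blockR : ∀ p : Fin (i + j), i ≤ p.val → ∃ y : Fin j, p = Fin.natAdd i y :=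
      fun p hp => ⟨⟨p.val - i, by omega⟩, by ext; simp; omega⟩
    have hlow' : ∀ p : Fin (i + j), (dsum α β p).val < i → p.val < i := by
      intro p hp
      by_contra hc
      have := hhigh p (not_lt.1 hc)
      omega
    constructor
    · rintro ⟨a, b, c, d, h1, h2, h3, h4, h5, h6⟩
      rw [Fin.lt_def] at h1 h2 h3 h4 h5 h6
      by_cases ha : a.val < i
      · have ca := hlow a ha
        have cc' : c.val < i := hlow' c (by omega)
        have cb := hlow b (by omega)
        have cd : d.val < i := hlow' d (by omega)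
        obtain ⟨a', rfl⟩ := blockL a ha
        obtain ⟨b', rfl⟩ := blockL b (by omega)
        obtain ⟨c', rfl⟩ := blockL c cc'
        obtain ⟨d', rfl⟩ := blockL d cd
        simp only [dsum_cast] at *
        exact hα.1 ⟨a', b', c', d', h1, h2, h3, h4, h5, h6⟩
      · obtain ⟨a', rfl⟩ := blockR a (by omega)
        obtain ⟨b', rfl⟩ := blockR b (by omega)
        obtain ⟨c', rfl⟩ := blockR c (by omega)
        obtain ⟨d', rfl⟩ := blockR d (by omega)
        simp only [dsum_nat, Fin.val_natAdd] at *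
        refine hβ.1 ⟨a', b', c', d', ?_⟩
        refine ⟨?_, ?_, ?_, ?_, ?_, ?_⟩ <;> rw [Fin.lt_def] <;> omega
    · rintro ⟨a, b, c, d, h1, h2, h3, h4, h5, h6⟩
      rw [Fin.lt_def] at h1 h2 h3 h4 h5 h6
      by_cases ha : a.val < i
      · have ca := hlow a ha
        have cd : d.val < i := hlow' d (by omega)
        obtain ⟨a', rfl⟩ := blockL a ha
        obtain ⟨b', rfl⟩ := blockL b (by omega)
        obtain ⟨c', rfl⟩ := blockL c (by omega)
        obtain ⟨d', rfl⟩ := blockL d cd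
        simp only [dsum_cast] at *
        exact hα.2 ⟨a', b', c', d', h1, h2, h3, h4, h5, h6⟩
      · obtain ⟨a', rfl⟩ := blockR a (by omega)
        obtain ⟨b', rfl⟩ := blockR b (by omega)
        obtain ⟨c', rfl⟩ := blockR c (by omega)
        obtain ⟨d', rfl⟩ := blockR d (by omega)
        simp only [dsum_nat, Fin.val_natAdd] at *
        refine hβ.2 ⟨a', b', c', d', ?_⟩
        refine ⟨?_, ?_, ?_, ?_, ?_, ?_⟩ <;> rw [Fin.lt_def] <;> omega

theorem des_dsum {i j : ℕ} (α : Equiv.Perm (Fin i)) (β : Equiv.Perm (Fin j)) :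
    des (dsum α β) = des α + des β := by
  classical
  have hlow := cut_dsum α β
  have hhigh := dsum_val_ge α β
  unfold des
  rw [card_filter, card_filter, card_filter, Fin.sum_univ_add]
  congr 1
  · refine sum_congr rfl (fun x _ => ?_)
    have : (∃ h : (Fin.castAdd j x).val + 1 < i + j, dsum α β ⟨(Fin.castAdd j x).val + 1, h⟩ < dsum α β (Fin.castAdd j x)) ↔
        (∃ h : x.val + 1 < i, α ⟨x.val + 1, h⟩ < α x) := by
      constructor
      · rintro ⟨h, hlt⟩
        have hx : (dsum α β (Fin.castAdd j x)).val < i := hlow _ (by simp)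
        by_cases hxi : x.val + 1 < i
        · refine ⟨hxi, ?_⟩
          have e : (⟨(Fin.castAdd j x).val + 1, h⟩ : Fin (i + j)) = Fin.castAdd j ⟨x.val + 1, hxi⟩ := by ext; simp
          rw [e, dsum_cast, dsum_cast] at hlt
          exact hlt
        · exfalso
          have h2 := hhigh ⟨(Fin.castAdd j x).val + 1, h⟩ (by simp; omega)
          rw [Fin.lt_def] at hlt
          omega
      · rintro ⟨h, hlt⟩
        refine ⟨by simp; omega, ?_⟩
        have e : (⟨(Fin.castAdd j x).val + 1, by simp; omega⟩ : Fin (i + j)) = Fin.castAdd j ⟨x.val + 1, h⟩ := by ext; simp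
        rw [e, dsum_cast, dsum_cast]
        exact hlt
    simp only [this]
  · refine sum_congr rfl (fun y _ => ?_)
    have : (∃ h : (Fin.natAdd i y).val + 1 < i + j, dsum α β ⟨(Fin.natAdd i y).val + 1, h⟩ < dsum α β (Fin.natAdd i y)) ↔
        (∃ h : y.val + 1 < j, β ⟨y.val + 1, h⟩ < β y) := by
      constructor
      · rintro ⟨h, hlt⟩
        have hy : y.val + 1 < j := by simp at h; omega
        refine ⟨hy, ?_⟩
        have e : (⟨(Fin.natAdd i y).val + 1, h⟩ : Fin (i + j)) = Fin.natAdd i ⟨y.val + 1, hy⟩ := by ext; simp; omega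
        rw [e, dsum_nat, dsum_nat, Fin.lt_def] at hlt
        simp only [Fin.val_natAdd] at hlt
        rw [Fin.lt_def]; omega
      · rintro ⟨h, hlt⟩
        refine ⟨by simp; omega, ?_⟩
        have e : (⟨(Fin.natAdd i y).val + 1, by simp; omega⟩ : Fin (i + j)) = Fin.natAdd i ⟨y.val + 1, h⟩ := by ext; simp; omega
        rw [e, dsum_nat, dsum_nat, Fin.lt_def]
        rw [Fin.lt_def] at hlt
        simp only [Fin.val_natAdd]
        omega
    simp only [this]

theorem asc_dsum {i j : ℕ} (hi : 0 < i) (hj : 0 < j) (α : Equiv.Perm (Fin i)) (β : Equiv.Perm (Fin j)) :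
    asc (dsum α β) = asc α + asc β + 1 := by
  classical
  have hlow := cut_dsum α β
  have hhigh := dsum_val_ge α β
  unfold asc
  rw [card_filter, card_filter, card_filter, Fin.sum_univ_add]
  have h1 : ∑ x : Fin i, (if (∃ h : (Fin.castAdd j x).val + 1 < i + j, dsum α β (Fin.castAdd j x) < dsum α β ⟨(Fin.castAdd j x).val + 1, h⟩) then 1 else 0)
      = ∑ x : Fin i, ((if (∃ h : x.val + 1 < i, α x < α ⟨x.val + 1, h⟩) then 1 else 0) + (if x = ⟨i - 1, by omega⟩ then 1 else 0)) := by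
    refine sum_congr rfl (fun x _ => ?_)
    have hx : (dsum α β (Fin.castAdd j x)).val < i := hlow _ (by simp)
    by_cases hxi : x.val + 1 < i
    · have hne : ¬ (x = ⟨i - 1, by omega⟩) := by
        intro h
        have := congrArg Fin.val h
        simp at this
        omega
      rw [if_neg hne, add_zero]
      have e : ∀ h, (⟨(Fin.castAdd j x).val + 1, h⟩ : Fin (i + j)) = Fin.castAdd j ⟨x.val + 1, hxi⟩ := by intro h; ext; simp
      have : (∃ h : (Fin.castAdd j x).val + 1 < i + j, dsum α β (Fin.castAdd j x) < dsum α β ⟨(Fin.castAdd j x).val + 1, h⟩) ↔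
        (∃ h : x.val + 1 < i, α x < α ⟨x.val + 1, h⟩) := by
        constructor
        · rintro ⟨h, hlt⟩
          rw [e, dsum_cast, dsum_cast] at hlt
          exact ⟨hxi, hlt⟩
        · rintro ⟨h, hlt⟩
          refine ⟨by simp; omega, ?_⟩
          rw [e, dsum_cast, dsum_cast]
          exact hlt
      simp only [this]
    · have he : x = ⟨i - 1, by omega⟩ := by ext; simp; omega
      rw [if_pos he]
      have t1 : (∃ h : (Fin.castAdd j x).val + 1 < i + j, dsum α β (Fin.castAdd j x) < dsum α β ⟨(Fin.castAdd j x).val + 1, h⟩) := by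
        have hh : (Fin.castAdd j x).val + 1 < i + j := by simp; omega
        refine ⟨hh, ?_⟩
        have h2 := hhigh ⟨(Fin.castAdd j x).val + 1, hh⟩ (by simp; omega)
        rw [Fin.lt_def]; omega
      have t2 : ¬ (∃ h : x.val + 1 < i, α x < α ⟨x.val + 1, h⟩) := by rintro ⟨h, _⟩; exact hxi h
      rw [if_pos t1, if_neg t2]
  have h2 : ∑ y : Fin j, (if (∃ h : (Fin.natAdd i y).val + 1 < i + j, dsum α β (Fin.natAdd i y) < dsum α β ⟨(Fin.natAdd i y).val + 1, h⟩) then 1 else 0)
      = ∑ y : Fin j, (if (∃ h : y.val + 1 < j, β y < β ⟨y.val + 1, h⟩) then 1 else 0) := by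
    refine sum_congr rfl (fun y _ => ?_)
    have : (∃ h : (Fin.natAdd i y).val + 1 < i + j, dsum α β (Fin.natAdd i y) < dsum α β ⟨(Fin.natAdd i y).val + 1, h⟩) ↔
        (∃ h : y.val + 1 < j, β y < β ⟨y.val + 1, h⟩) := by
      constructor
      · rintro ⟨h, hlt⟩
        have hy : y.val + 1 < j := by simp at h; omega
        refine ⟨hy, ?_⟩
        have e : (⟨(Fin.natAdd i y).val + 1, h⟩ : Fin (i + j)) = Fin.natAdd i ⟨y.val + 1, hy⟩ := by ext; simp; omega
        rw [e, dsum_nat, dsum_nat, Fin.lt_def] at hlt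
        simp only [Fin.val_natAdd] at hlt
        rw [Fin.lt_def]; omega
      · rintro ⟨h, hlt⟩
        refine ⟨by simp; omega, ?_⟩
        have e : (⟨(Fin.natAdd i y).val + 1, by simp; omega⟩ : Fin (i + j)) = Fin.natAdd i ⟨y.val + 1, h⟩ := by ext; simp; omega
        rw [e, dsum_nat, dsum_nat, Fin.lt_def]
        rw [Fin.lt_def] at hlt
        simp only [Fin.val_natAdd]
        omega
    simp only [this]
  rw [h1, h2, sum_add_distrib, sum_ite_eq']
  simp only [mem_univ, if_true]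
  omega

/-! ### weights -/

def W (a b : ℤ) {n : ℕ} (σ : Equiv.Perm (Fin n)) : ℤ := a ^ asc σ * b ^ des σ

theorem W_dsum (a b : ℤ) {i j : ℕ} (hi : 0 < i) (hj : 0 < j) (α : Equiv.Perm (Fin i)) (β : Equiv.Perm (Fin j)) :
    W a b (dsum α β) = a * (W a b α * W a b β) := by
  rw [W, W, W, des_dsum, asc_dsum hi hj]; ring

open Classical in
noncomputable def SP (n : ℕ) (a b : ℤ) : ℤ := ∑ σ : Equiv.Perm (Fin n), if Sep σ then W a b σ else 0

open Classical in
noncomputable def PP (n : ℕ) (a b : ℤ) : ℤ := ∑ σ : Equiv.Perm (Fin n), if Sep σ ∧ Dec σ then W a b σ else 0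

open Classical in
noncomputable def QQ (n i : ℕ) (a b : ℤ) : ℤ := ∑ σ : Equiv.Perm (Fin n),
  if Sep σ ∧ Cut σ i ∧ ∀ k, 0 < k → k < i → ¬ Cut σ k then W a b σ else 0

theorem QQ_eq (i j : ℕ) (hi : 0 < i) (hj : 0 < j) (a b : ℤ) :
    QQ (i + j) i a b = a * ((SP i a b - PP i a b) * SP j a b) := by
  classical
  have hI : SP i a b - PP i a b = ∑ α : Equiv.Perm (Fin i), if Sep α ∧ ¬ Dec α then W a b α else 0 := by
    rw [SP, PP, ← sum_sub_distrib]
    refine sum_congr rfl (fun α _ => ?_)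
    by_cases h1 : Sep α <;> by_cases h2 : Dec α <;> simp [h1, h2]
  rw [hI, SP]
  have hprod : (∑ α : Equiv.Perm (Fin i), if Sep α ∧ ¬ Dec α then W a b α else 0) * (∑ β : Equiv.Perm (Fin j), if Sep β then W a b β else 0)
      = ∑ x : Equiv.Perm (Fin i) × Equiv.Perm (Fin j), (if Sep x.1 ∧ ¬ Dec x.1 then W a b x.1 else 0) * (if Sep x.2 then W a b x.2 else 0) := by
    rw [Fintype.sum_prod_type, sum_mul_sum]
  rw [hprod, mul_sum, QQ]
  rw [← sum_filter, ← Finset.sum_subset (Finset.filter_subset (fun x : Equiv.Perm (Fin i) × Equiv.Perm (Fin j) => (Sep x.1 ∧ ¬ Dec x.1) ∧ Sep x.2) _)]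
  · symm
    refine Finset.sum_bij (fun x _ => dsum x.1 x.2) ?_ ?_ ?_ ?_
    · rintro ⟨α, β⟩ hx
      simp only [mem_filter, mem_univ, mem_product, true_and, and_self] at hx ⊢
      refine ⟨(sep_dsum α β).2 ⟨hx.1.1, hx.2⟩, cut_dsum α β, ?_⟩
      intro k hk0 hki hcut
      exact hx.1.2 ⟨k, hk0, hki, (cut_dsum_iff α β hki).1 hcut⟩
    · rintro ⟨α, β⟩ _ ⟨α', β'⟩ _ h
      obtain ⟨h1, h2⟩ := dsum_inj h
      exact Prod.ext h1 h2
    · intro σ hσ
      simp only [mem_filter, mem_univ, true_and] at hσ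
      obtain ⟨α, β, rfl⟩ := exists_dsum σ hσ.2.1
      have hs := (sep_dsum α β).1 hσ.1
      refine ⟨(α, β), ?_, rfl⟩
      simp only [mem_filter, mem_univ, mem_product, true_and, and_self]
      refine ⟨⟨hs.1, ?_⟩, hs.2⟩
      rintro ⟨k, hk0, hki, hcut⟩
      exact hσ.2.2 k hk0 hki ((cut_dsum_iff α β hki).2 hcut)
    · rintro ⟨α, β⟩ hx
      simp only [mem_filter, mem_univ, mem_product, true_and, and_self] at hx
      simp only [if_pos hx.1, if_pos hx.2]
      exact (W_dsum a b hi hj α β).symm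
  · rintro ⟨α, β⟩ _ hx
    simp only [mem_filter, mem_univ, mem_product, true_and, and_self, not_and_or] at hx
    by_cases h1 : Sep α ∧ ¬ Dec α
    · have h2 : ¬ Sep β := by
        rcases hx with h | h
        · exact absurd h1 (by tauto)
        · exact h
      simp [h2]
    · simp only [if_neg h1]; simp

theorem PP_eq (n : ℕ) (a b : ℤ) : PP n a b =
    a * ∑ p ∈ antidiagonal n, if 0 < p.1 ∧ 0 < p.2 then (SP p.1 a b - PP p.1 a b) * SP p.2 a b else 0 := by
  classical
  have h1 : PP n a b = ∑ i ∈ (range n).filter (fun i => 0 < i), QQ n i a b := by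
    simp only [PP, QQ]
    rw [sum_comm]
    refine sum_congr rfl (fun σ _ => ?_)
    by_cases hd : Sep σ ∧ Dec σ
    · rw [if_pos hd]
      obtain ⟨hs, hdec⟩ := hd
      have hdec' : ∃ i, 0 < i ∧ i < n ∧ Cut σ i := hdec
      obtain ⟨m0, mn, mc⟩ := Nat.find_spec hdec'
      have hmin : ∀ k, k < Nat.find hdec' → ¬ (0 < k ∧ k < n ∧ Cut σ k) := fun k hk => Nat.find_min hdec' hk
      rw [sum_eq_single (Nat.find hdec')]
      · rw [if_pos ⟨hs, mc, fun k hk0 hki hc => hmin k hki ⟨hk0, by omega, hc⟩⟩]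
      · intro k hk hne
        rw [mem_filter, mem_range] at hk
        rw [if_neg]
        rintro ⟨_, hc, hm⟩
        rcases lt_trichotomy k (Nat.find hdec') with h | h | h
        · exact hmin k h ⟨hk.2, hk.1, hc⟩
        · exact hne h
        · exact hm _ m0 h mc
      · intro hc
        exact absurd (mem_filter.2 ⟨mem_range.2 mn, m0⟩) hc
    · rw [if_neg hd]
      symm
      refine sum_eq_zero (fun i hi => ?_)
      rw [mem_filter, mem_range] at hi
      rw [if_neg]
      rintro ⟨hs, hc, _⟩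
      exact hd ⟨hs, i, hi.2, hi.1, hc⟩
  rw [h1, mul_sum]
  rw [Finset.Nat.sum_antidiagonal_eq_sum_range_succ (fun p q => a * if 0 < p ∧ 0 < q then (SP p a b - PP p a b) * SP q a b else 0),
    sum_range_succ]
  simp only [Nat.sub_self, lt_irrefl, and_false, if_false, mul_zero, add_zero]
  rw [sum_filter]
  refine sum_congr rfl (fun i hi => ?_)
  rw [mem_range] at hi
  by_cases h0 : 0 < i
  · rw [if_pos h0, if_pos ⟨h0, by omega⟩]
    obtain ⟨j, rfl⟩ := Nat.exists_eq_add_of_lt hi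
    have := QQ_eq i (j + 1) h0 (by omega) a b
    rw [show i + j + 1 = i + (j + 1) by ring, this, show i + (j + 1) - i = j + 1 by omega]
  · rw [if_neg h0, if_neg (fun h => h0 h.1)]; simp

/-! ### complement -/

def comp {n : ℕ} (σ : Equiv.Perm (Fin n)) : Equiv.Perm (Fin n) := σ.trans Fin.revPerm

theorem comp_apply {n : ℕ} (σ : Equiv.Perm (Fin n)) (x : Fin n) : comp σ x = (σ x).rev := rfl

theorem comp_comp {n : ℕ} (σ : Equiv.Perm (Fin n)) : comp (comp σ) = σ := by
  ext x; simp [comp_apply]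

theorem comp_lt {n : ℕ} (σ : Equiv.Perm (Fin n)) (x y : Fin n) : comp σ x < comp σ y ↔ σ y < σ x := by
  rw [comp_apply, comp_apply]; exact Fin.rev_lt_rev

theorem asc_comp {n : ℕ} (σ : Equiv.Perm (Fin n)) : asc (comp σ) = des σ := by
  unfold asc des
  congr 1
  ext x
  simp only [mem_filter, comp_lt]

theorem des_comp {n : ℕ} (σ : Equiv.Perm (Fin n)) : des (comp σ) = asc σ := by
  unfold asc des
  congr 1
  ext x
  simp only [mem_filter, comp_lt]

theorem sep_comp {n : ℕ} (σ : Equiv.Perm (Fin n)) : Sep (comp σ) ↔ Sep σ := by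
  unfold Sep
  simp only [comp_lt]
  constructor
  · rintro ⟨h1, h2⟩
    refine ⟨?_, ?_⟩
    · rintro ⟨a, b, c, d, e1, e2, e3, e4, e5, e6⟩
      exact h2 ⟨a, b, c, d, e1, e2, e3, e6, e5, e4⟩
    · rintro ⟨a, b, c, d, e1, e2, e3, e4, e5, e6⟩
      exact h1 ⟨a, b, c, d, e1, e2, e3, e6, e5, e4⟩
  · rintro ⟨h1, h2⟩
    refine ⟨?_, ?_⟩
    · rintro ⟨a, b, c, d, e1, e2, e3, e4, e5, e6⟩
      exact h2 ⟨a, b, c, d, e1, e2, e3, e6, e5, e4⟩
    · rintro ⟨a, b, c, d, e1, e2, e3, e4, e5, e6⟩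
      exact h1 ⟨a, b, c, d, e1, e2, e3, e6, e5, e4⟩

def compEquiv (n : ℕ) : Equiv.Perm (Fin n) ≃ Equiv.Perm (Fin n) where
  toFun := comp
  invFun := comp
  left_inv := comp_comp
  right_inv := comp_comp

theorem SP_symm (n : ℕ) (a b : ℤ) : SP n a b = SP n b a := by
  classical
  rw [SP, SP]
  refine Fintype.sum_equiv (compEquiv n) _ _ (fun σ => ?_)
  have : Sep (compEquiv n σ) ↔ Sep σ := sep_comp σ
  simp only [this]
  split_ifs
  · change W a b σ = W b a (comp σ)
    rw [W, W, asc_comp, des_comp]; ring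
  · rfl

theorem PP_symm (n : ℕ) (a b : ℤ) : PP n b a =
    ∑ σ : Equiv.Perm (Fin n), @ite ℤ (Sep σ ∧ Dec (comp σ)) (Classical.dec _) (W a b σ) 0 := by
  classical
  rw [PP]
  refine Fintype.sum_equiv (compEquiv n) _ _ (fun σ => ?_)
  have : Sep (compEquiv n σ) ↔ Sep σ := sep_comp σ
  have h2 : comp (compEquiv n σ) = σ := comp_comp σ
  simp only [this, h2]
  by_cases h : Sep σ ∧ Dec σ
  · rw [if_pos h, if_pos h]
    change W b a σ = W a b (comp σ)
    rw [W, W, asc_comp, des_comp]; ring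
  · rw [if_neg h, if_neg h]

theorem cut_of_upcut {n : ℕ} (σ : Equiv.Perm (Fin n)) (i : ℕ) (hi : i < n)
    (h : ∀ p q : Fin n, p.val < i → i ≤ q.val → σ p < σ q) : Cut σ i := by
  classical
  intro p hp
  have h1 : (Finset.Ici (⟨i, hi⟩ : Fin n)).image σ ⊆ Finset.Ioi (σ p) := by
    intro x hx
    rw [mem_image] at hx
    obtain ⟨q, hq, rfl⟩ := hx
    rw [mem_Ici] at hq
    rw [mem_Ioi]
    exact h p q hp hq
  have h2 := card_le_card h1
  rw [card_image_of_injective _ σ.injective, Fin.card_Ici, Fin.card_Ioi] at h2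
  simp only at h2
  have := (σ p).2
  omega

theorem cut_mono_val {n i : ℕ} (σ : Equiv.Perm (Fin n)) (hi : i < n) (hc : Cut σ i) (q : Fin n) (hq : i ≤ q.val) :
    i ≤ (σ q).val := by
  obtain ⟨j, rfl⟩ := Nat.exists_eq_add_of_lt hi
  obtain ⟨α, β, h⟩ := exists_dsum (i := i) (j := j + 1) σ hc
  have := dsum_val_ge α β q hq
  rw [← h] at this
  exact this

theorem dec_excl {n : ℕ} (σ : Equiv.Perm (Fin n)) (h1 : Dec σ) (h2 : Dec (comp σ)) : False := by
  obtain ⟨i, hi0, hin, hci⟩ := h1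
  obtain ⟨k, hk0, hkn, hck⟩ := h2
  have n0 : 0 < n := by omega
  have a1 := hci ⟨0, n0⟩ hi0
  have a2 := cut_mono_val σ hin hci ⟨n - 1, by omega⟩ (by simp; omega)
  have b1 := hck ⟨0, n0⟩ hk0
  have b2 := cut_mono_val (comp σ) hkn hck ⟨n - 1, by omega⟩ (by simp; omega)
  rw [comp_apply, Fin.val_rev] at b1 b2
  omega

theorem dec_exists {n : ℕ} (hn : 2 ≤ n) (σ : Equiv.Perm (Fin n)) (hs : Sep σ) : Dec σ ∨ Dec (comp σ) := by
  obtain ⟨m, rfl⟩ := Nat.exists_eq_add_of_le' hn
  have hinj : Function.Injective (fun x : Fin (m + 2) => ((σ x).val : ℤ)) := by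
    intro x y hxy
    apply σ.injective
    ext
    have h' : ((σ x).val : ℤ) = (σ y).val := hxy
    exact_mod_cast h'
  have hlt : ∀ x y : Fin (m + 2), (fun x : Fin (m + 2) => ((σ x).val : ℤ)) x < (fun x : Fin (m + 2) => ((σ x).val : ℤ)) y → σ x < σ y := by
    intro x y h
    have h' : ((σ x).val : ℤ) < (σ y).val := h
    rw [Fin.lt_def]; exact_mod_cast h'
  have hav : Av (fun x : Fin (m + 2) => ((σ x).val : ℤ)) := by
    constructor
    · rintro ⟨a, b, c, d, h1, h2, h3, h4, h5, h6⟩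
      exact hs.1 ⟨a, b, c, d, h1, h2, h3, hlt _ _ h4, hlt _ _ h5, hlt _ _ h6⟩
    · rintro ⟨a, b, c, d, h1, h2, h3, h4, h5, h6⟩
      exact hs.2 ⟨a, b, c, d, h1, h2, h3, hlt _ _ h4, hlt _ _ h5, hlt _ _ h6⟩
  obtain ⟨i, hi0, hin, hc⟩ := cut_exists m _ hinj hav
  rcases hc with hc | hc
  · left
    refine ⟨i, hi0, hin, cut_of_upcut σ i hin (fun p q hp hq => ?_)⟩
    exact hlt _ _ (hc p q hp hq)
  · right
    refine ⟨i, hi0, hin, cut_of_upcut (comp σ) i hin (fun p q hp hq => ?_)⟩
    rw [comp_lt]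
    exact hlt _ _ (neg_lt_neg_iff.1 (hc p q hp hq))

theorem SP_split (n : ℕ) (hn : 2 ≤ n) (a b : ℤ) : SP n a b = PP n a b + PP n b a := by
  classical
  rw [PP_symm n a b, SP, PP, ← sum_add_distrib]
  refine sum_congr rfl (fun σ _ => ?_)
  by_cases hs : Sep σ
  · by_cases h1 : Dec σ
    · have h2 : ¬ Dec (comp σ) := fun h2 => dec_excl σ h1 h2
      simp [hs, h1, h2]
    · have h2 : Dec (comp σ) := (dec_exists hn σ hs).resolve_left h1
      simp [hs, h1, h2]
  · simp [hs]

theorem SP_one (a b : ℤ) : SP 1 a b = 1 := by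
  classical
  have h1 : ∀ σ : Equiv.Perm (Fin 1), (if Sep σ then W a b σ else 0) = 1 := by
    intro σ
    have hs : Sep σ := by
      constructor
      · rintro ⟨a, b, c, d, h, _⟩; omega
      · rintro ⟨a, b, c, d, h, _⟩; omega
    rw [if_pos hs, W]
    have ha : asc σ = 0 := by
      rw [asc, Finset.card_eq_zero, Finset.filter_eq_empty_iff]
      rintro i _ ⟨h, _⟩
      omega
    have hd : des σ = 0 := by
      rw [des, Finset.card_eq_zero, Finset.filter_eq_empty_iff]
      rintro i _ ⟨h, _⟩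
      omega
    rw [ha, hd]; simp
  rw [SP, sum_congr rfl (fun σ _ => h1 σ)]
  simp

theorem PP_one (a b : ℤ) : PP 1 a b = 0 := by
  rw [PP_eq, show (HasAntidiagonal.antidiagonal 1 : Finset (ℕ × ℕ)) = {(0, 1), (1, 0)} from rfl]
  simp

theorem sepPoly_eq (n : ℕ) (t : ℤ) : sepPoly n t = SP n 1 t := by
  classical
  rw [sepPoly, SP, sum_filter]
  refine sum_congr rfl (fun σ _ => ?_)
  by_cases hs : Sep σ
  · rw [if_pos hs, if_pos hs, W, one_pow, one_mul]
  · rw [if_neg hs, if_neg hs]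

/-! ### generating functions -/

noncomputable def gS (t : ℤ) : PowerSeries ℤ := PowerSeries.mk (fun n => if n = 0 then 0 else SP n 1 t)
noncomputable def gP (t : ℤ) : PowerSeries ℤ := PowerSeries.mk (fun n => if n = 0 then 0 else PP n 1 t)
noncomputable def gM (t : ℤ) : PowerSeries ℤ := PowerSeries.mk (fun n => if n = 0 then 0 else PP n t 1)

theorem gP_eq (t : ℤ) : gP t = (gS t - gP t) * gS t := by
  ext n
  rw [PowerSeries.coeff_mul, gP, PowerSeries.coeff_mk]
  by_cases hn : n = 0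
  · subst hn; simp [gS]
  · rw [if_neg hn, PP_eq, one_mul]
    refine sum_congr rfl (fun p _ => ?_)
    rw [map_sub, gS, PowerSeries.coeff_mk, PowerSeries.coeff_mk, PowerSeries.coeff_mk]
    by_cases h1 : p.1 = 0
    · simp [h1]
    · by_cases h2 : p.2 = 0
      · simp [h2]
      · rw [if_pos ⟨by omega, by omega⟩, if_neg h1, if_neg h1, if_neg h2]

theorem gM_eq (t : ℤ) : gM t = PowerSeries.C t * ((gS t - gM t) * gS t) := by
  ext n
  rw [PowerSeries.coeff_C_mul, PowerSeries.coeff_mul, gM, PowerSeries.coeff_mk]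
  by_cases hn : n = 0
  · subst hn; simp [gS]
  · rw [if_neg hn, PP_eq]
    congr 1
    refine sum_congr rfl (fun p _ => ?_)
    rw [map_sub, gS, PowerSeries.coeff_mk, PowerSeries.coeff_mk, PowerSeries.coeff_mk]
    by_cases h1 : p.1 = 0
    · simp [h1]
    · by_cases h2 : p.2 = 0
      · simp [h2]
      · rw [if_pos ⟨by omega, by omega⟩, if_neg h1, if_neg h1, if_neg h2, SP_symm p.1 t 1, SP_symm p.2 t 1]

theorem gS_eq (t : ℤ) : gS t = PowerSeries.X + gP t + gM t := by
  ext n
  rw [map_add, map_add, gS, gP, gM, PowerSeries.coeff_mk, PowerSeries.coeff_mk, PowerSeries.coeff_mk, PowerSeries.coeff_X]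
  rcases n with _ | _ | n
  · simp
  · simp [SP_one, PP_one]
  · rw [if_neg (by omega), if_neg (by omega), if_neg (by omega), if_neg (by omega), SP_split _ (by omega)]
    ring

theorem gS_fun (t : ℤ) : gS t = PowerSeries.X + PowerSeries.C (1 + t) * (PowerSeries.X * gS t) +
    PowerSeries.C t * (PowerSeries.X * (gS t * gS t)) + PowerSeries.C t * (gS t * (gS t * gS t)) := by
  have h1 := gP_eq t
  have h2 := gM_eq t
  have h3 := gS_eq t
  have hC : PowerSeries.C (1 + t) = 1 + PowerSeries.C t := by rw [map_add, map_one]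
  rw [hC]
  set S := gS t
  set P := gP t
  set M := gM t
  set T : PowerSeries ℤ := PowerSeries.C t
  linear_combination (1 + S) * (1 + T * S) * h3 + (1 + T * S) * h1 + (1 + S) * h2

theorem partE : PartE := by
  intro n t hn
  have h := congrArg (PowerSeries.coeff n) (gS_fun t)
  obtain ⟨m, rfl⟩ := Nat.exists_eq_add_of_le' hn
  rw [map_add, map_add, map_add, PowerSeries.coeff_X, if_neg (by omega), PowerSeries.coeff_C_mul,
    PowerSeries.coeff_C_mul, PowerSeries.coeff_C_mul, show m + 2 = m + 1 + 1 from rfl, PowerSeries.coeff_succ_X_mul,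
    PowerSeries.coeff_succ_X_mul, zero_add] at h
  have hg : ∀ k, PowerSeries.coeff k (gS t) = if k = 0 then 0 else sepPoly k t := by
    intro k
    rw [gS, PowerSeries.coeff_mk, sepPoly_eq]
  rw [hg, hg, if_neg (by omega), if_neg (by omega)] at h
  rw [show m + 2 = m + 1 + 1 from rfl, h, show m + 1 + 1 - 1 = m + 1 by omega]
  congr 1
  · congr 2
    rw [PowerSeries.coeff_mul]
    refine sum_congr rfl (fun p _ => ?_)
    rw [hg, hg]
    by_cases h1 : p.1 = 0
    · simp [h1]
    · by_cases h2 : p.2 = 0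
      · simp [h2]
      · rw [if_neg h1, if_neg h2, if_pos ⟨by omega, by omega⟩]
  · congr 1
    rw [PowerSeries.coeff_mul]
    refine sum_congr rfl (fun p _ => ?_)
    rw [PowerSeries.coeff_mul, mul_sum]
    refine sum_congr rfl (fun r _ => ?_)
    rw [hg, hg, hg]
    by_cases h1 : p.1 = 0
    · simp [h1]
    · by_cases h2 : r.1 = 0
      · simp [h2]
      · by_cases h3 : r.2 = 0
        · simp [h3]
        · rw [if_neg h1, if_neg h2, if_neg h3, if_pos ⟨by omega, by omega, by omega⟩]; ring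

end R442.GS
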