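import Mathlib
import Pool.Agent.R442.GS.B
import Pool.Agent.R442.GS.D2

/-! Final part of MP_f98a08 (given PartA and PartE). -/

namespace R442.GS

open Finset

/-! ### the separable side -/

/-- `σ_n(z) = Σ_k γ_{n,k} z^k` over `ℚ`, `σ_0 = 0` -/
noncomputable def sg (γ : ℕ → ℕ → ℤ) (n : ℕ) : Polynomial ℚ :=
  if n = 0 then 0 else ∑ k ∈ range ((n - 1) / 2 + 1), Polynomial.C (γ n k : ℚ) * Polynomial.X ^ k

theorem sg_eval (γ : ℕ → ℕ → ℤ) (h : ∀ n, 1 ≤ n → IsGammaSep n (γ n)) (n : ℕ) (hn : 1 ≤ n) (t : ℤ) (ht : (1 + t : ℚ) ≠ 0) :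
    (1 + t : ℚ) ^ n * (sg γ n).eval ((t : ℚ) / (1 + t) ^ 2) = (1 + t) * (sepPoly n t : ℚ) := by
  rw [h n hn t, sg, if_neg (by omega)]
  push_cast
  rw [Polynomial.eval_finsetSum, mul_sum, mul_sum]
  refine sum_congr rfl (fun k hk => ?_)
  rw [mem_range] at hk
  simp only [Polynomial.eval_mul, Polynomial.eval_C, Polynomial.eval_pow, Polynomial.eval_X]
  have hexp : n = 2 * k + 1 + (n - 1 - 2 * k) := by omega
  conv_lhs => rw [hexp, pow_add, pow_succ, pow_mul]
  rw [div_pow]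
  have h2 : ((1 + t : ℚ) ^ 2) ^ k ≠ 0 := pow_ne_zero _ (pow_ne_zero _ ht)
  field_simp
  rw [← hexp]; ring

theorem inf_vals : Set.Infinite {z : ℚ | ∃ t : ℤ, 1 ≤ t ∧ z = (t : ℚ) / (1 + t) ^ 2} := by
  have hinj : Function.Injective (fun n : ℕ => (((n : ℤ) + 1 : ℤ) : ℚ) / (1 + (((n : ℤ) + 1 : ℤ) : ℚ)) ^ 2) := by
    intro a b hab
    simp only at hab
    push_cast at hab
    have ha : (0 : ℚ) ≤ a := Nat.cast_nonneg a
    have hb : (0 : ℚ) ≤ b := Nat.cast_nonneg b
    rw [div_eq_div_iff (by positivity) (by positivity)] at hab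
    have h1 : ((a : ℚ) - b) * (1 - (a + 1) * (b + 1)) = 0 := by linear_combination hab
    rcases mul_eq_zero.1 h1 with h | h
    · exact_mod_cast sub_eq_zero.1 h
    · have h2 : (a : ℚ) * b + a + b = 0 := by linear_combination -h
      have h3 : (a : ℚ) = 0 := by nlinarith [mul_nonneg ha hb]
      have h4 : (b : ℚ) = 0 := by nlinarith [mul_nonneg ha hb]
      have : (a : ℚ) = b := by rw [h3, h4]
      exact_mod_cast this
  refine (Set.infinite_range_of_injective hinj).mono ?_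
  rintro z ⟨n, rfl⟩
  exact ⟨(n : ℤ) + 1, by omega, rfl⟩

theorem sg_rec (hE : PartE) (γ : ℕ → ℕ → ℤ) (h : ∀ n, 1 ≤ n → IsGammaSep n (γ n)) (n : ℕ) :
    sg γ (n + 2) = sg γ (n + 1) + Polynomial.X * ((∑ p ∈ antidiagonal (n + 1), sg γ p.1 * sg γ p.2) +
      ∑ p ∈ antidiagonal (n + 2), ∑ r ∈ antidiagonal p.2, sg γ p.1 * (sg γ r.1 * sg γ r.2)) := by
  apply Polynomial.eq_of_infinite_eval_eq
  refine inf_vals.mono ?_
  rintro z ⟨t, ht1, rfl⟩
  have htq : (1 : ℚ) ≤ t := by exact_mod_cast ht1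
  have ht : (1 + t : ℚ) ≠ 0 := by positivity
  set w : ℚ := 1 + t with hw
  set z : ℚ := (t : ℚ) / w ^ 2 with hz
  have hsg0 : sg γ 0 = 0 := by simp [sg]
  -- value of the if-terms
  have hval : ∀ m, 1 ≤ m → (sepPoly m t : ℚ) = w ^ m * (sg γ m).eval z / w := by
    intro m hm
    have := sg_eval γ h m hm t ht
    rw [eq_div_iff ht]
    linear_combination -this
  have hE' := hE (n + 2) t (by omega)
  have hE2 : (sepPoly (n + 2) t : ℚ) = (1 + t) * (sepPoly (n + 1) t : ℚ)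
      + t * ∑ p ∈ antidiagonal (n + 1), (if 1 ≤ p.1 ∧ 1 ≤ p.2 then (sepPoly p.1 t : ℚ) * sepPoly p.2 t else 0)
      + t * ∑ p ∈ antidiagonal (n + 2), ∑ r ∈ antidiagonal p.2,
        (if 1 ≤ p.1 ∧ 1 ≤ r.1 ∧ 1 ≤ r.2 then (sepPoly p.1 t : ℚ) * sepPoly r.1 t * sepPoly r.2 t else 0) := by
    have := congrArg (Int.cast : ℤ → ℚ) hE'
    push_cast at this
    exact this
  have s2 : ∑ p ∈ antidiagonal (n + 1), (if 1 ≤ p.1 ∧ 1 ≤ p.2 then (sepPoly p.1 t : ℚ) * sepPoly p.2 t else 0)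
      = w ^ (n + 1) / w ^ 2 * ∑ p ∈ antidiagonal (n + 1), (sg γ p.1).eval z * (sg γ p.2).eval z := by
    rw [mul_sum]
    refine sum_congr rfl (fun p hp => ?_)
    rw [HasAntidiagonal.mem_antidiagonal] at hp
    split_ifs with hc
    · rw [hval _ hc.1, hval _ hc.2, ← hp, pow_add]
      field_simp
    · have : p.1 = 0 ∨ p.2 = 0 := by omega
      rcases this with h0 | h0 <;> simp [h0, hsg0]
  have s3 : ∑ p ∈ antidiagonal (n + 2), ∑ r ∈ antidiagonal p.2,
        (if 1 ≤ p.1 ∧ 1 ≤ r.1 ∧ 1 ≤ r.2 then (sepPoly p.1 t : ℚ) * sepPoly r.1 t * sepPoly r.2 t else 0)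
      = w ^ (n + 2) / w ^ 3 * ∑ p ∈ antidiagonal (n + 2), ∑ r ∈ antidiagonal p.2,
        (sg γ p.1).eval z * ((sg γ r.1).eval z * (sg γ r.2).eval z) := by
    rw [mul_sum]
    refine sum_congr rfl (fun p hp => ?_)
    rw [mul_sum]
    refine sum_congr rfl (fun r hr => ?_)
    rw [HasAntidiagonal.mem_antidiagonal] at hp hr
    split_ifs with hc
    · rw [hval _ hc.1, hval _ hc.2.1, hval _ hc.2.2, ← hp, ← hr, pow_add, pow_add]
      field_simp
    · have : p.1 = 0 ∨ r.1 = 0 ∨ r.2 = 0 := by omega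
      rcases this with h0 | h0 | h0 <;> simp [h0, hsg0]
  rw [s2, s3, hval _ (by omega), hval _ (by omega)] at hE2
  simp only [Set.mem_setOf_eq, Polynomial.eval_add, Polynomial.eval_mul, Polynomial.eval_X, Polynomial.eval_finsetSum]
  have hz2 : (t : ℚ) = z * w ^ 2 := by rw [hz]; field_simp
  set a := (sg γ (n + 2)).eval z with ha
  set b := (sg γ (n + 1)).eval z with hb
  set P2 := ∑ p ∈ antidiagonal (n + 1), (sg γ p.1).eval z * (sg γ p.2).eval z with hP2
  set P3 := ∑ p ∈ antidiagonal (n + 2), ∑ r ∈ antidiagonal p.2,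
        (sg γ p.1).eval z * ((sg γ r.1).eval z * (sg γ r.2).eval z) with hP3
  rw [← hw, hz2] at hE2
  have hw1 : w ^ (n + 1) ≠ 0 := pow_ne_zero _ ht
  have e1 : w ^ (n + 1) * a = w ^ (n + 1) * (b + z * (P2 + P3)) := by
    have l1 : w ^ (n + 2) * a / w = w ^ (n + 1) * a := by rw [pow_succ w (n + 1)]; field_simp
    have l2 : w * (w ^ (n + 1) * b / w) = w ^ (n + 1) * b := by field_simp
    have l3 : z * w ^ 2 * (w ^ (n + 1) / w ^ 2 * P2) = w ^ (n + 1) * (z * P2) := by field_simp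
    have l4 : z * w ^ 2 * (w ^ (n + 2) / w ^ 3 * P3) = w ^ (n + 1) * (z * P3) := by
      rw [pow_succ w (n + 1)]; field_simp
    rw [l1, l2, l3, l4] at hE2
    rw [hE2]; ring
  exact mul_left_cancel₀ hw1 e1

theorem sepPoly_one (t : ℤ) : sepPoly 1 t = 1 := by
  have h1 : ∀ σ : Equiv.Perm (Fin 1), des σ = 0 := by
    intro σ
    rw [des, Finset.card_eq_zero, Finset.filter_eq_empty_iff]
    rintro i _ ⟨h, _⟩
    omega
  rw [sepPoly]
  have h2 : (univ : Finset (Equiv.Perm (Fin 1))).filter Sep = univ := by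
    rw [Finset.filter_eq_self]
    intro σ _
    constructor
    · rintro ⟨a, b, c, d, h, _⟩; omega
    · rintro ⟨a, b, c, d, h, _⟩; omega
  rw [h2, sum_congr rfl (fun σ _ => by rw [h1 σ, pow_zero])]
  simp

theorem sg_one (γ : ℕ → ℕ → ℤ) (h : ∀ n, 1 ≤ n → IsGammaSep n (γ n)) : sg γ 1 = 1 := by
  have h1 := h 1 le_rfl 0
  rw [sepPoly_one] at h1
  simp at h1
  rw [sg, if_neg one_ne_zero]
  simp [← h1]

theorem sg_eq_col (hE : PartE) (γ : ℕ → ℕ → ℤ) (h : ∀ n, 1 ≤ n → IsGammaSep n (γ n)) (n : ℕ) :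
    (sg γ n : PowerSeries ℚ) = PowerSeries.map (Nat.castRingHom ℚ) (col n SS) := by
  induction n using Nat.strong_induction_on with
  | _ n ih =>
    rcases n with _ | _ | n
    · rw [col_SS_zero]; simp [sg]
    · rw [zero_add, sg_one γ h, col_SS_one]; simp
    · rw [sg_rec hE γ h n, col_SS_rec]
      simp only [Polynomial.coe_add, Polynomial.coe_mul, Polynomial.coe_X, map_add, map_mul, PowerSeries.map_X, map_sum]
      have hs : ∀ (s : Finset (ℕ × ℕ)) (f : ℕ × ℕ → Polynomial ℚ), ((∑ p ∈ s, f p : Polynomial ℚ) : PowerSeries ℚ) =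
          ∑ p ∈ s, (f p : PowerSeries ℚ) := by
        intro s f
        exact map_sum (Polynomial.coeToPowerSeries.ringHom (R := ℚ)) f s
      rw [hs, hs, ih (n + 1) (by omega)]
      congr 2
      congr 1
      · refine sum_congr rfl (fun p hp => ?_)
        rw [HasAntidiagonal.mem_antidiagonal] at hp
        rw [Polynomial.coe_mul]
        by_cases h1 : p.1 < n + 1 + 1
        · by_cases h2 : p.2 < n + 1 + 1
          · rw [ih _ h1, ih _ h2]
          · omega
        · omega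
      · refine sum_congr rfl (fun p hp => ?_)
        rw [HasAntidiagonal.mem_antidiagonal] at hp
        rw [hs]
        refine sum_congr rfl (fun r hr => ?_)
        rw [HasAntidiagonal.mem_antidiagonal] at hr
        rw [Polynomial.coe_mul, Polynomial.coe_mul]
        by_cases h0 : p.1 = 0
        · rw [h0, col_SS_zero]; simp [sg]
        by_cases h1 : r.1 = 0
        · rw [h1, col_SS_zero]; simp [sg]
        by_cases h2 : r.2 = 0
        · rw [h2, col_SS_zero]; simp [sg]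
        rw [ih p.1 (by omega), ih r.1 (by omega), ih r.2 (by omega)]

theorem gammaSep_eq (hE : PartE) (γ : ℕ → ℕ → ℤ) (h : ∀ n, 1 ≤ n → IsGammaSep n (γ n)) (n k : ℕ) (hn : 1 ≤ n)
    (hk : k ≤ (n - 1) / 2) : γ n k = ((PowerSeries.coeff n (PowerSeries.coeff k SS) : ℕ) : ℤ) := by
  have h1 := congrArg (PowerSeries.coeff k) (sg_eq_col hE γ h n)
  rw [PowerSeries.coeff_map, col, PowerSeries.coeff_mk, Polynomial.coeff_coe, sg, if_neg (by omega)] at h1
  rw [Polynomial.finsetSum_coeff] at h1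
  simp only [Polynomial.coeff_C_mul, Polynomial.coeff_X_pow] at h1
  rw [sum_eq_single k (fun b _ hb => by rw [if_neg (fun e => hb e.symm)]; simp)
    (fun hc => absurd (mem_range.2 (by omega)) hc)] at h1
  simp at h1
  exact_mod_cast h1

/-! ### the Gessel side -/

/-- `ℤ⟦x⟧` version of `e` -/
noncomputable def eZ : PowerSeries ℤ := PowerSeries.map (Nat.castRingHom ℤ) ee

theorem one_add_eZ : (1 - PowerSeries.X) * (1 + eZ) = 1 := by
  have h := congrArg (PowerSeries.map (Nat.castRingHom ℤ)) ee_eq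
  rw [map_mul, map_add, map_one, PowerSeries.map_X] at h
  change eZ = PowerSeries.X * (1 + eZ) at h
  linear_combination h

theorem pow_coeff (m n : ℕ) (hn : 1 ≤ n) : PowerSeries.coeff n ((1 + eZ) ^ m) = (((m + n - 1).choose n : ℕ) : ℤ) := by
  have h1 : (1 + eZ) = PowerSeries.mk 1 := by
    have h2 : (PowerSeries.mk 1 : PowerSeries ℤ) * (1 - PowerSeries.X) = 1 := PowerSeries.mk_one_mul_one_sub_eq_one ℤ
    calc 1 + eZ = ((PowerSeries.mk 1 : PowerSeries ℤ) * (1 - PowerSeries.X)) * (1 + eZ) := by rw [h2, one_mul]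
      _ = PowerSeries.mk 1 * ((1 - PowerSeries.X) * (1 + eZ)) := by ring
      _ = _ := by rw [one_add_eZ, mul_one]
  rw [h1]
  rcases m with _ | m
  · rw [pow_zero, PowerSeries.coeff_one, if_neg (by omega), Nat.choose_eq_zero_of_lt (by omega)]; simp
  · rw [PowerSeries.mk_one_pow_eq_mk_choose_add, PowerSeries.coeff_mk]
    rw [show m + 1 + n - 1 = m + n by omega, Nat.choose_symm_add]

/-- `G(n,k) = [x^n] e v_{1,k}` -/
noncomputable def GG (n k : ℕ) : ℕ := PowerSeries.coeff n (ee * vv (c0 ee) 1 k)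

theorem map_vv {A B : Type*} [CommSemiring A] [CommSemiring B] (f : A →+* B) (c : ℕ → A) :
    ∀ k h : ℕ, f (vv c h k) = vv (fun i => f (c i)) h k := by
  intro k
  induction k with
  | zero => intro h; rw [vv_zero, vv_zero, map_one]
  | succ k ihk =>
    intro h
    induction h with
    | zero => rw [vv_zero_succ, vv_zero_succ, map_zero]
    | succ h ih => rw [vv_succ, vv_succ, map_add, map_mul, ih, ihk]

theorem cc_eZ (h : ℕ) : cc (1 + eZ) h = PowerSeries.map (Nat.castRingHom ℤ) (c0 ee h) := by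
  have hp : ∀ h, (1 + eZ) ^ h - 1 = PowerSeries.map (Nat.castRingHom ℤ) (pp ee h) := by
    intro h
    have := congrArg (PowerSeries.map (Nat.castRingHom ℤ)) (pp_eq ee h)
    rw [map_pow, map_add, map_add, map_one] at this
    change (1 + eZ) ^ h = _ at this
    rw [this]; ring
  rw [cc, hp, hp, c0, map_mul]

theorem GG_id (n M : ℕ) (hn : 1 ≤ n) :
    ∑ k ∈ range M, (-1) ^ k * (GG n k : ℤ) * (((M + k).choose (2 * k + 1) : ℕ) : ℤ) =
      - ∑ p ∈ antidiagonal (2 * M), (-1) ^ p.2 * (((p.1 * p.2 + n - 1).choose n : ℕ) : ℤ) := by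
  have h := partC (1 + eZ) M
  have h1 := congrArg (PowerSeries.coeff n) h
  rw [add_sub_cancel_left, mul_sum, map_sum, map_sub, PowerSeries.coeff_one, if_neg (by omega), zero_sub, theta, map_sum] at h1
  have h2 : ∀ k, PowerSeries.coeff n (eZ * ((-1) ^ k * vv (cc (1 + eZ)) 1 k * (((M + k).choose (2 * k + 1) : ℕ) : PowerSeries ℤ)))
      = (-1) ^ k * (GG n k : ℤ) * (((M + k).choose (2 * k + 1) : ℕ) : ℤ) := by
    intro k
    have e1 : vv (cc (1 + eZ)) 1 k = PowerSeries.map (Nat.castRingHom ℤ) (vv (c0 ee) 1 k) := by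
      rw [map_vv]
      congr 1
      funext i
      exact cc_eZ i
    have e2 : eZ * ((-1) ^ k * vv (cc (1 + eZ)) 1 k * (((M + k).choose (2 * k + 1) : ℕ) : PowerSeries ℤ)) =
        PowerSeries.C ((-1) ^ k * (((M + k).choose (2 * k + 1) : ℕ) : ℤ)) *
          PowerSeries.map (Nat.castRingHom ℤ) (ee * vv (c0 ee) 1 k) := by
      rw [e1, map_mul, map_mul, map_pow, map_neg, map_one, map_natCast]
      change _ = _ * (eZ * _)
      ring
    rw [e2, PowerSeries.coeff_C_mul, PowerSeries.coeff_map, GG]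
    simp
    ring
  rw [sum_congr rfl (fun k _ => h2 k)] at h1
  rw [h1]
  congr 1
  refine sum_congr rfl (fun p _ => ?_)
  have e3 : ((-1 : PowerSeries ℤ)) ^ p.2 * (1 + eZ) ^ (p.1 * p.2) = PowerSeries.C ((-1 : ℤ) ^ p.2) * (1 + eZ) ^ (p.1 * p.2) := by
    rw [map_pow, map_neg, map_one]
  rw [e3, PowerSeries.coeff_C_mul, pow_coeff _ _ hn]

theorem gamma_eq (hA : PartA) (n : ℕ) (hn : 1 ≤ n) (γ : ℕ → ℕ → ℤ) (h : IsGamma n γ) (k : ℕ) (hk : k ≤ (n - 1) / 2) :
    γ k (n - 1 - 2 * k) = (GG n k : ℤ) := by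
  set a : ℕ → ℤ := fun i => if i ≤ (n - 1) / 2 then γ i (n - 1 - 2 * i) else 0 with ha
  have key : ∀ M : ℕ, ∑ i ∈ range M, (-1) ^ i * a i * (((M + i).choose (2 * i + 1) : ℕ) : ℤ) =
      ∑ i ∈ range M, (-1) ^ i * (GG n i : ℤ) * (((M + i).choose (2 * i + 1) : ℕ) : ℤ) := by
    intro M
    rw [GG_id n M hn, ← partB hA n hn γ h M]
    have e1 : ∑ i ∈ range ((n - 1) / 2 + 1), (-1) ^ i * γ i (n - 1 - 2 * i) * (((M + i).choose (2 * i + 1) : ℕ) : ℤ)
        = ∑ i ∈ range ((n - 1) / 2 + 1 + M), (-1) ^ i * a i * (((M + i).choose (2 * i + 1) : ℕ) : ℤ) := by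
      have e0 : ∑ i ∈ range ((n - 1) / 2 + 1), (-1) ^ i * a i * (((M + i).choose (2 * i + 1) : ℕ) : ℤ)
        = ∑ i ∈ range ((n - 1) / 2 + 1 + M), (-1) ^ i * a i * (((M + i).choose (2 * i + 1) : ℕ) : ℤ) := by
        refine sum_subset (range_subset_range.2 (by omega)) ?_
        intro i _ hi
        rw [mem_range] at hi
        have : a i = 0 := by rw [ha]; exact if_neg (by omega)
        rw [this]; simp
      rw [← e0]
      refine sum_congr rfl (fun i hi => ?_)
      rw [mem_range] at hi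
      have : a i = γ i (n - 1 - 2 * i) := by rw [ha]; exact if_pos (by omega)
      rw [this]
    rw [e1]
    refine sum_subset (range_subset_range.2 (by omega)) (fun i _ hi => ?_)
    rw [mem_range] at hi
    rw [Nat.choose_eq_zero_of_lt (by omega)]; simp
  have all : ∀ i, a i = (GG n i : ℤ) := by
    intro i
    induction i using Nat.strong_induction_on with
    | _ i ih =>
      have h1 := key (i + 1)
      rw [sum_range_succ, sum_range_succ] at h1
      have h2 : ∑ j ∈ range i, (-1) ^ j * a j * (((i + 1 + j).choose (2 * j + 1) : ℕ) : ℤ) =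
          ∑ j ∈ range i, (-1) ^ j * (GG n j : ℤ) * (((i + 1 + j).choose (2 * j + 1) : ℕ) : ℤ) :=
        sum_congr rfl (fun j hj => by rw [ih j (mem_range.1 hj)])
      rw [h2] at h1
      have h3 := add_left_cancel h1
      rw [show i + 1 + i = 2 * i + 1 by ring, Nat.choose_self] at h3
      simp only [Nat.cast_one, mul_one] at h3
      exact mul_left_cancel₀ (pow_ne_zero _ (by norm_num)) h3
  have := all k
  simp only [ha] at this
  rw [if_pos hk] at this
  exact this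

theorem main (hA : PartA) (hE : PartE) (γ : ℕ → ℕ → ℕ → ℤ) (γS : ℕ → ℕ → ℤ)
    (h : ∀ n, 1 ≤ n → IsGamma n (γ n)) (hS : ∀ n, 1 ≤ n → IsGammaSep n (γS n)) (n k : ℕ) (hn : 1 ≤ n)
    (hk : k ≤ (n - 1) / 2) : γS n k ≤ γ n k (n - 1 - 2 * k) := by
  rw [gammaSep_eq hE γS hS n k hn hk, gamma_eq hA n hn (γ n) (h n hn) k hk]
  have h1 := rr_ale ee k
  have h2 : PowerSeries.coeff n (PowerSeries.coeff k SS) ≤ GG n k := by
    rw [SS, PowerSeries.coeff_C_mul, RS, PowerSeries.coeff_mk, GG]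
    obtain ⟨c, hc⟩ := h1
    rw [hc, mul_add, map_add]
    exact Nat.le_add_right _ _
  exact_mod_cast h2

end R442.GS
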